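import Pool.Agent.H85.TN.Defs

/-!
# [H85 TN APN] virtually nilpotent groups
-/

set_option autoImplicit false

universe u v

namespace H85.TN

open H85.TA H85.TG

variable {Γ : Type u} [Group Γ]

theorem vnil_of_vn (h : VN (⊤ : Subgroup Γ) ⊥) : Group.IsVirtuallyNilpotent Γ := by
  obtain ⟨A, -, hi, c, hc⟩ := h
  rw [Subgroup.relIndex_top_right] at hi
  exact ⟨A, Subgroup.isNilpotent_of_lowerCentralSeries_eq_bot (le_bot_iff.1 hc), ⟨hi⟩⟩

private theorem pc_of_fg_comm {Q : Type u} [Group Q] (I : Subgroup Q) (hfg : I.FG)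
    (hc : ∀ a ∈ I, ∀ b ∈ I, a * b = b * a) : PC I ⊥ := by
  obtain ⟨T, hT⟩ := hfg
  have h1 : {x : Q | x ∈ T.toList} = (T : Set Q) := by
    ext x
    simp
  have h2 : Subgroup.closure {x : Q | x ∈ T.toList} = I := by
    rw [h1, hT]
  have h3 := chain_of_list T.toList (by
    rw [h2]
    exact hc)
  rw [h2] at h3
  exact h3

private theorem pc_step (hmax : ∀ H : Subgroup Γ, H.FG) (A B : Subgroup Γ) [B.Normal] (hBA : B ≤ A)
    (hc : ∀ x ∈ A, ∀ y ∈ A, x * y * x⁻¹ * y⁻¹ ∈ B) : PC A B := by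
  have h1 : PC (A.map (QuotientGroup.mk' B)) ⊥ := by
    refine pc_of_fg_comm _ (fg_map (hmax A) _) ?_
    rintro _ ⟨x, hx, rfl⟩ _ ⟨y, hy, rfl⟩
    rw [← map_mul, ← map_mul, QuotientGroup.mk'_apply, QuotientGroup.mk'_apply, QuotientGroup.eq]
    have h2 := hc _ (A.inv_mem hy) _ (A.inv_mem hx)
    have h3 : (x * y)⁻¹ * (y * x) = y⁻¹ * x⁻¹ * y⁻¹⁻¹ * x⁻¹⁻¹ := by group
    rw [h3]
    exact h2
  have h2 := h1.comap (QuotientGroup.mk' B)
  rw [Subgroup.comap_map_eq, MonoidHom.comap_bot, QuotientGroup.ker_mk', sup_eq_left.2 hBA] at h2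
  exact h2

theorem ap_of_vnil (hmax : ∀ H : Subgroup Γ, H.FG) (h : Group.IsVirtuallyNilpotent Γ) :
    H85.TA.AlmostPolycyclic Γ := by
  obtain ⟨A, hA, hAf⟩ := h
  obtain ⟨c, hc⟩ := (Subgroup.isNilpotent_iff_lowerCentralSeries A).1 hA
  have hN : A.normalCore.lowerCentralSeries c = ⊥ := by
    rw [eq_bot_iff, ← hc]
    exact Subgroup.lowerCentralSeries_mono c A.normalCore_le
  have h1 : ∀ i, PC A.normalCore (A.normalCore.lowerCentralSeries i) := by
    intro i
    induction i with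
    | zero => exact PC.refl _
    | succ i ih =>
      refine ih.trans (pc_step hmax _ _ (A.normalCore.lowerCentralSeries_antitone (Nat.le_succ i)) ?_)
      intro x hx y hy
      exact Subgroup.commutator_mem_commutator hx
        (A.normalCore.lowerCentralSeries_le_self i hy)
  have h2 := h1 c
  rw [hN] at h2
  obtain ⟨n, f, h0, hn, hf⟩ := h2
  exact ⟨A.normalCore, A.normalCore_normal, inferInstance, n, f, h0, hn, hf⟩

end H85.TN
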