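import Pool.Agent.H85.TN.Defs

/-!
# [H85 TN CAL] rules for virtually nilpotent modulo a subgroup, 80-120 lines

`VN K N`: there is `A ≤ K` with `A.relIndex K ≠ 0` and `A.lowerCentralSeries c ≤ N` for some `c`. Compare the same rules for `VA` in `Pool/Agent/H85/TA/Va.lean` and for `VP` in
`Pool/Agent/H85/TG/Ab.lean`; most proofs can be copied. Mathlib: `Subgroup.lowerCentralSeries_mono` (monotone in the subgroup), `Subgroup.lowerCentralSeries_antitone`,
`Subgroup.lowerCentralSeries_le_self`, `Subgroup.map_lowerCentralSeries`.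
* `VN.mono_left`: `A ⊓ K'`. `VN.mono_right`: same `A`. `VN.congr`: same `A`: `lowerCentralSeries c ≤ A ≤ K`, so it is in `N ⊓ K = N' ⊓ K`.
* `VN.of_relIndex`: same `A`, `Subgroup.relIndex_ne_zero_trans`. `VN.of_finite`: `A = ⊥`. `VN.of_index`: `A = N`.
* `VN.inf`: `A ⊓ A'`, `c = max`. `VN.iInf`: induction over a finite set of indices as in `VP.iInf`; the start is `VN K ⊤`.
* `VN.map` (any `φ`, but injective for the index): `A.map φ`, `Subgroup.map_lowerCentralSeries`. `VN.comap`: `A.comap φ`: its lower central series is mapped by `φ` into that of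
  `(A.comap φ).map φ ≤ A`.
* `VN.conj`: as `VA.conj`: `A.map` of the conjugation by `g`, an injective homomorphism.
-/

set_option autoImplicit false

universe u v

namespace H85.TN

open H85.TA H85.TG

variable {Γ : Type u} [Group Γ]

theorem VN.mono_left {K K' N : Subgroup Γ} (h : VN K N) (hK : K' ≤ K) : VN K' N := by
  obtain ⟨A, hA, hi, c, hc⟩ := h
  refine ⟨A ⊓ K', inf_le_right, ?_, c, ?_⟩
  · rw [Subgroup.inf_relIndex_right]
    exact fun h0 => hi (Subgroup.relIndex_eq_zero_of_le_right hK h0)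
  · exact (Subgroup.lowerCentralSeries_mono c inf_le_left).trans hc

theorem VN.mono_right {K N N' : Subgroup Γ} (h : VN K N) (hN : N ≤ N') : VN K N' := by
  obtain ⟨A, hA, hi, c, hc⟩ := h
  exact ⟨A, hA, hi, c, hc.trans hN⟩

theorem VN.congr {K N N' : Subgroup Γ} (h : VN K N) (hN : N ⊓ K = N' ⊓ K) : VN K N' := by
  obtain ⟨A, hA, hi, c, hc⟩ := h
  refine ⟨A, hA, hi, c, ?_⟩
  have h1 : A.lowerCentralSeries c ≤ N ⊓ K :=
    le_inf hc ((A.lowerCentralSeries_le_self c).trans hA)
  rw [hN] at h1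
  exact h1.trans inf_le_left

theorem VN.of_relIndex {K K' N : Subgroup Γ} (h : VN K' N) (hK : K' ≤ K) (hi : K'.relIndex K ≠ 0) :
    VN K N := by
  obtain ⟨A, hA, hi', hp⟩ := h
  exact ⟨A, hA.trans hK, Subgroup.relIndex_ne_zero_trans hi' hi, hp⟩

theorem VN.of_finite {K N : Subgroup Γ} (hK : (K : Set Γ).Finite) : VN K N := by
  have : Finite K := hK.to_subtype
  refine ⟨⊥, bot_le, ?_, 0, ?_⟩
  · rw [Subgroup.relIndex_bot_left]
    exact Nat.card_pos.ne'
  · exact bot_le

theorem VN.of_index {K N : Subgroup Γ} (hN : N ≤ K) (hi : N.relIndex K ≠ 0) : VN K N :=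
  ⟨N, hN, hi, 0, le_rfl⟩

theorem VN.inf {K N N' : Subgroup Γ} (h : VN K N) (h' : VN K N') : VN K (N ⊓ N') := by
  obtain ⟨A, hA, hi, c, hc⟩ := h
  obtain ⟨A', hA', hi', c', hc'⟩ := h'
  refine ⟨A ⊓ A', inf_le_left.trans hA, Subgroup.relIndex_inf_ne_zero hi hi', max c c',
    le_inf ?_ ?_⟩
  · exact ((Subgroup.lowerCentralSeries_antitone _ (le_max_left c c')).trans
      (Subgroup.lowerCentralSeries_mono c inf_le_left)).trans hc
  · exact ((Subgroup.lowerCentralSeries_antitone _ (le_max_right c c')).trans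
      (Subgroup.lowerCentralSeries_mono c' inf_le_right)).trans hc'

theorem VN.iInf {ι : Type*} [Finite ι] {K : Subgroup Γ} {N : ι → Subgroup Γ}
    (h : ∀ i, VN K (N i)) : VN K (⨅ i, N i) := by
  classical
  cases nonempty_fintype ι
  have h1 : ∀ s : Finset ι, VN K (⨅ i ∈ s, N i) := by
    intro s
    induction s using Finset.induction_on with
    | empty =>
      refine ⟨K, le_rfl, ?_, 0, ?_⟩
      · rw [Subgroup.relIndex_self]
        exact one_ne_zero
      · simp
    | insert a s _ ih =>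
      rw [Finset.iInf_insert]
      exact (h a).inf ih
  have h2 := h1 Finset.univ
  simpa using h2

theorem VN.map {Γ' : Type v} [Group Γ'] (φ : Γ →* Γ') (hφ : Function.Injective φ) {K N : Subgroup Γ}
    (h : VN K N) : VN (K.map φ) (N.map φ) := by
  obtain ⟨A, hA, hi, c, hc⟩ := h
  refine ⟨A.map φ, Subgroup.map_mono hA, ?_, c, ?_⟩
  · rw [Subgroup.relIndex_map_map_of_injective A K hφ]
    exact hi
  · rw [← Subgroup.map_lowerCentralSeries]
    exact Subgroup.map_mono hc

theorem VN.comap {Γ' : Type v} [Group Γ'] (φ : Γ →* Γ') {K N : Subgroup Γ'} (h : VN K N) :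
    VN (K.comap φ) (N.comap φ) := by
  obtain ⟨A, hA, hi, c, hc⟩ := h
  refine ⟨A.comap φ, Subgroup.comap_mono hA, ?_, c, ?_⟩
  · rw [Subgroup.relIndex_comap]
    exact fun h0 => hi (Subgroup.relIndex_eq_zero_of_le_right (Subgroup.map_comap_le φ K) h0)
  · rw [← Subgroup.map_le_iff_le_comap, Subgroup.map_lowerCentralSeries]
    exact (Subgroup.lowerCentralSeries_mono c (Subgroup.map_comap_le φ A)).trans hc

/-- `K'` and `N'` are conjugate to `K` and `N` -/
theorem VN.conj {K N K' N' : Subgroup Γ} (h : VN K N) (g : Γ)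
    (hK : ∀ x, x ∈ K' ↔ g⁻¹ * x * g ∈ K) (hN : ∀ x ∈ N, g * x * g⁻¹ ∈ N') : VN K' N' := by
  let f : Γ →* Γ := (MulAut.conj g).toMonoidHom
  have hf : ∀ x, f x = g * x * g⁻¹ := fun x => rfl
  have hK' : K' = K.map f := by
    ext x
    rw [hK]
    constructor
    · intro hx
      refine ⟨g⁻¹ * x * g, hx, ?_⟩
      rw [hf]
      group
    · rintro ⟨y, hy, rfl⟩
      have h1 : g⁻¹ * f y * g = y := by
        rw [hf]
        group
      rw [h1]
      exact hy
  rw [hK']
  refine (h.map f (MulAut.conj g).injective).mono_right ?_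
  rintro _ ⟨x, hx, rfl⟩
  exact hN x hx

end H85.TN
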