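import Pool.Agent.H85.TN.Nil
import Pool.Agent.H85.TN.Cal

/-!
# [H85 TN EXT] extensions by cyclic groups and the theorem of Gromov with nilpotent conclusion
-/

set_option autoImplicit false

universe u v

namespace H85.TN

open H85.TA H85.TG

theorem vn_ext {Γ : Type u} [Group Γ] {d : ℕ} (hPG : PG Γ d) (hmax : ∀ H : Subgroup Γ, H.FG)
    (N : Subgroup Γ) (hN : N.Normal) (h : VN N ⊥) (t : Γ)
    (ht : ∀ x : Γ, ∃ k : ℤ, t ^ k * x⁻¹ ∈ N) : VN (⊤ : Subgroup Γ) ⊥ := by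
  obtain ⟨A, hAN, hAi, c, hc⟩ := h
  obtain ⟨A', hA'n, hA'A, hA'i⟩ := exists_char N hN (hmax N) A hAN hAi
  have h1 : A'.lowerCentralSeries c = ⊥ :=
    le_bot_iff.1 ((Subgroup.lowerCentralSeries_mono c hA'A).trans hc)
  obtain ⟨k, hk, m, hm⟩ := nil_power hPG hmax A' c h1 t
  obtain ⟨B, hB⟩ : ∃ B, B = A' ⊔ Subgroup.zpowers (t ^ k) := ⟨_, rfl⟩
  rw [← hB] at hm
  have hA'B : A' ≤ B := by
    rw [hB]
    exact le_sup_left
  have htB : t ^ k ∈ B := by
    rw [hB]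
    exact (le_sup_right : Subgroup.zpowers (t ^ k) ≤ A' ⊔ Subgroup.zpowers (t ^ k))
      (Subgroup.mem_zpowers (t ^ k))
  refine ⟨B, le_top, ?_, m, hm.le⟩
  rw [Subgroup.relIndex_top_right]
  have hA'i' : (A'.subgroupOf N).index ≠ 0 := hA'i
  haveI : (A'.subgroupOf N).FiniteIndex := ⟨hA'i'⟩
  haveI : Finite (N ⧸ A'.subgroupOf N) := inferInstance
  haveI : Finite (Γ ⧸ B) := by
    refine Finite.of_surjective (α := (N ⧸ A'.subgroupOf N) × Fin k)
      (fun p => Quotient.lift (fun y : N => (QuotientGroup.mk ((y : Γ) * t ^ (p.2 : ℕ)) : Γ ⧸ B))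
        ?_ p.1) ?_
    · intro y y' hyy
      have h3 : y⁻¹ * y' ∈ A'.subgroupOf N := QuotientGroup.leftRel_apply.1 hyy
      refine QuotientGroup.eq.2 ?_
      have h4 : ((y : Γ) * t ^ (p.2 : ℕ))⁻¹ * ((y' : Γ) * t ^ (p.2 : ℕ)) =
          (t ^ (p.2 : ℕ))⁻¹ * ((y : Γ)⁻¹ * (y' : Γ)) * (t ^ (p.2 : ℕ))⁻¹⁻¹ := by group
      rw [h4]
      exact hA'B (hA'n.conj_mem _ (Subgroup.mem_subgroupOf.1 h3) _)
    · intro q
      obtain ⟨x, rfl⟩ := QuotientGroup.mk_surjective q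
      obtain ⟨j, hj⟩ := ht x
      have hk' : (0 : ℤ) < k := by exact_mod_cast hk
      have h5 : 0 ≤ j % (k : ℤ) := Int.emod_nonneg j hk'.ne'
      have h6 : j % (k : ℤ) < k := Int.emod_lt_of_pos j hk'
      have h7 : (((j % (k : ℤ)).toNat : ℕ) : ℤ) = j % (k : ℤ) := Int.toNat_of_nonneg h5
      have h8 : (j % (k : ℤ)).toNat < k := by omega
      refine ⟨(QuotientGroup.mk (⟨t ^ j * x⁻¹, hj⟩⁻¹ : N), ⟨(j % (k : ℤ)).toNat, h8⟩), ?_⟩
      change (QuotientGroup.mk ((t ^ j * x⁻¹)⁻¹ * t ^ (j % (k : ℤ)).toNat) : Γ ⧸ B) =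
        QuotientGroup.mk x
      refine QuotientGroup.eq.2 ?_
      have h9 : t ^ (j % (k : ℤ)).toNat = t ^ (j % (k : ℤ)) := by
        rw [← zpow_natCast, h7]
      have h10 : ((t ^ j * x⁻¹)⁻¹ * t ^ (j % (k : ℤ)).toNat)⁻¹ * x = (t ^ k) ^ (j / (k : ℤ)) := by
        rw [h9, ← zpow_natCast, ← zpow_mul]
        have h11 : j = (k : ℤ) * (j / (k : ℤ)) + j % (k : ℤ) := (Int.mul_ediv_add_emod j k).symm
        have h12 : t ^ j = t ^ ((k : ℤ) * (j / (k : ℤ))) * t ^ (j % (k : ℤ)) := by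
          rw [← zpow_add, ← h11]
        have h13 : ((t ^ j * x⁻¹)⁻¹ * t ^ (j % (k : ℤ)))⁻¹ * x =
            (t ^ (j % (k : ℤ)))⁻¹ * t ^ j := by group
        rw [h13, h12, ← zpow_neg, ← zpow_add, ← zpow_add]
        congr 1
        ring
      rw [h10]
      exact zpow_mem htB _
  exact Subgroup.index_ne_zero_of_finite

theorem vn_of_pg (d : ℕ) : ∀ (Q : Type u) [Group Q], (∀ H : Subgroup Q, H.FG) → PG Q d →
    VN (⊤ : Subgroup Q) ⊥ := by
  induction d with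
  | zero =>
    intro Q _ hmax h
    haveI : Finite Q := pg_zero h (hmax ⊤)
    exact VN.of_finite (Set.toFinite _)
  | succ e ih =>
    intro Q _ hmax h
    rcases finite_or_infinite Q with hfin | hinf
    · exact VN.of_finite (Set.toFinite _)
    · obtain ⟨Q₁, hQ₁, χ, hχ⟩ := gromov_core hmax h
      have hpg1 : PG Q₁ (e + 1) := pg_sub h Q₁
      have h1 : PG χ.ker e := pg_ker hpg1 χ hχ
      have hmax1 : ∀ H : Subgroup Q₁, H.FG := max_sub hmax Q₁
      have hmax2 : ∀ H : Subgroup χ.ker, H.FG := max_sub hmax1 χ.ker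
      have h2 : VN (⊤ : Subgroup χ.ker) ⊥ := ih χ.ker hmax2 h1
      have h3 := VN.map χ.ker.subtype χ.ker.subtype_injective h2
      rw [← MonoidHom.range_eq_map, Subgroup.range_subtype, Subgroup.map_bot] at h3
      obtain ⟨t, ht⟩ := hχ (Multiplicative.ofAdd 1)
      have h4 : VN (⊤ : Subgroup Q₁) ⊥ := by
        refine vn_ext hpg1 hmax1 χ.ker inferInstance h3 t fun x => ?_
        refine ⟨Multiplicative.toAdd (χ x), ?_⟩
        rw [MonoidHom.mem_ker, map_mul, map_zpow, map_inv, ht, mul_inv_eq_one, ← ofAdd_zsmul,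
          smul_eq_mul, mul_one, ofAdd_toAdd]
      have h5 := VN.map Q₁.subtype Q₁.subtype_injective h4
      rw [← MonoidHom.range_eq_map, Subgroup.range_subtype, Subgroup.map_bot] at h5
      refine h5.of_relIndex le_top ?_
      rw [Subgroup.relIndex_top_right]
      exact hQ₁.index_ne_zero

end H85.TN
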