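import Pool.Agent.H85.TN.Pgs
import Pool.Agent.H85.TN.Ext
import Pool.Agent.H85.TA.Gr5

/-!
# [H85 TN REL] groups with sets of small boundary, relative version, 60-90 lines (copy)

Copy of the proof of `va_of_sets` (`Pool/Agent/H85/TA/Gr5.lean`): `Q = closure S ⧸ N.subgroupOf (closure S)`, the map `q`, the image `S.image q` generates `Q`; for every `c` the image of
`A` is a set as in `pg_of_sets` (same computation with `^ d` and `A.card ^ (d - 1)`). `pg_of_sets` gives `PG Q d`; all subgroups of `Q` are finitely generated: `max_quot` (`TG/Jc.lean`)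
for the group `closure S` (`hmax` gives that for the subgroups of `closure S` as a type: map by `subtype`, injective, `max_sub`-type argument). `vn_of_pg` gives
`VN (⊤ : Subgroup Q) ⊥`; `VN.comap` for `QuotientGroup.mk'` and `VN.map` for `(closure S).subtype` give `VN (closure S) N` (see the end of the proof of `hvp` in `vp_core`,
`TG/Jc.lean`; `N ≤ closure S`).
-/

set_option autoImplicit false

universe u v

namespace H85.TN

open H85.TA H85.TG

open Classical in
theorem vn_of_sets {Γ : Type u} [Group Γ] (H N : Subgroup Γ) (hN : N ≤ H)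
    (hnorm : ∀ h ∈ H, ∀ n ∈ N, h * n * h⁻¹ ∈ N) (hmax : H85.TA.Max H) (S : Finset Γ)
    (hS : Subgroup.closure (S : Set Γ) = H) (d : ℕ) (hd : 1 ≤ d)
    (h : ∀ c : ℕ, ∃ A : Finset Γ, A.Nonempty ∧ (∀ a ∈ A, a ∈ H) ∧
      (∀ a ∈ A, ∀ b ∈ A, a⁻¹ * b ∈ N → a = b) ∧
      c * (∑ s ∈ S, (A.filter fun a => ∀ b ∈ A, b⁻¹ * (s * a) ∉ N).card) ^ d < A.card ^ (d - 1)) :
    VN H N := by
  subst hS
  have hnormal : (N.subgroupOf (Subgroup.closure (S : Set Γ))).Normal := by
    refine ⟨fun n hn g => ?_⟩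
    exact hnorm g.1 g.2 n.1 hn
  let π : Subgroup.closure (S : Set Γ) →*
      Subgroup.closure (S : Set Γ) ⧸ N.subgroupOf (Subgroup.closure (S : Set Γ)) :=
    QuotientGroup.mk' _
  let q : Γ → Subgroup.closure (S : Set Γ) ⧸ N.subgroupOf (Subgroup.closure (S : Set Γ)) :=
    fun g => if hg : g ∈ Subgroup.closure (S : Set Γ) then π ⟨g, hg⟩ else 1
  have hq : ∀ (g : Γ) (hg : g ∈ Subgroup.closure (S : Set Γ)), q g = π ⟨g, hg⟩ := fun g hg =>
    dif_pos hg
  have hSm : ∀ s ∈ S, s ∈ Subgroup.closure (S : Set Γ) := fun s hs => Subgroup.subset_closure hs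
  have hqeq : ∀ (a b : Γ) (ha : a ∈ Subgroup.closure (S : Set Γ))
      (hb : b ∈ Subgroup.closure (S : Set Γ)), q a = q b ↔ a⁻¹ * b ∈ N := by
    intro a b ha hb
    rw [hq a ha, hq b hb]
    change ((⟨a, ha⟩ : Subgroup.closure (S : Set Γ)) :
      Subgroup.closure (S : Set Γ) ⧸ N.subgroupOf (Subgroup.closure (S : Set Γ))) =
      ((⟨b, hb⟩ : Subgroup.closure (S : Set Γ)) :
      Subgroup.closure (S : Set Γ) ⧸ N.subgroupOf (Subgroup.closure (S : Set Γ))) ↔ _
    rw [QuotientGroup.eq, Subgroup.mem_subgroupOf]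
    rfl
  have hqmul : ∀ (a b : Γ) (_ : a ∈ Subgroup.closure (S : Set Γ))
      (_ : b ∈ Subgroup.closure (S : Set Γ)), q (a * b) = q a * q b := by
    intro a b ha hb
    rw [hq a ha, hq b hb, hq (a * b) (Subgroup.mul_mem _ ha hb), ← map_mul]
    rfl
  -- the image generates
  have hgen : Subgroup.closure ((S.image q : Finset _) : Set (Subgroup.closure (S : Set Γ) ⧸
      N.subgroupOf (Subgroup.closure (S : Set Γ)))) = ⊤ := by
    have h1 : ((S.image q : Finset _) : Set _) =
        π '' (((↑) : Subgroup.closure (S : Set Γ) → Γ) ⁻¹' (S : Set Γ)) := by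
      ext x
      rw [Finset.coe_image]
      constructor
      · rintro ⟨s, hs, rfl⟩
        exact ⟨⟨s, hSm s hs⟩, hs, (hq s (hSm s hs)).symm⟩
      · rintro ⟨⟨s, hs'⟩, hs, rfl⟩
        exact ⟨s, hs, hq s hs'⟩
    rw [h1, ← MonoidHom.map_closure, Subgroup.closure_closure_coe_preimage, ← MonoidHom.range_eq_map]
    exact MonoidHom.range_eq_top.2 (QuotientGroup.mk'_surjective _)
  have hpg := pg_of_sets (S.image q) hgen d hd (by
    intro c
    obtain ⟨A, hne, hAm, hinj, hlt⟩ := h c
    refine ⟨A.image q, hne.image q, ?_⟩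
    have hcard : (A.image q).card = A.card := by
      refine Finset.card_image_of_injOn ?_
      intro a ha b hb hab
      exact hinj a ha b hb ((hqeq a b (hAm a ha) (hAm b hb)).1 hab)
    rw [hcard]
    refine lt_of_le_of_lt (Nat.mul_le_mul_left c (Nat.pow_le_pow_left ?_ d)) hlt
    refine (sum_image_le' S q _).trans (Finset.sum_le_sum fun s hs => ?_)
    refine (Finset.card_le_card ?_).trans (Finset.card_image_le (f := q))
    intro y hy
    rw [Finset.mem_filter] at hy
    obtain ⟨hy1, hy2⟩ := hy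
    obtain ⟨a, ha, rfl⟩ := Finset.mem_image.1 hy1
    refine Finset.mem_image.2 ⟨a, Finset.mem_filter.2 ⟨ha, fun b hb hbn => hy2 ?_⟩, rfl⟩
    rw [← hqmul s a (hSm s hs) (hAm a ha)]
    refine Finset.mem_image.2 ⟨b, hb, ?_⟩
    exact (hqeq b (s * a) (hAm b hb) (Subgroup.mul_mem _ (hSm s hs) (hAm a ha))).2 hbn)
  have hmaxH : ∀ L : Subgroup (Subgroup.closure (S : Set Γ)), L.FG := by
    intro L
    have h1 := hmax (L.map (Subgroup.closure (S : Set Γ)).subtype) (by
      rintro _ ⟨y, -, rfl⟩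
      exact y.2)
    rw [← Group.fg_iff_subgroup_fg] at h1 ⊢
    exact Group.fg_of_surjective (f := (L.equivMapOfInjective (Subgroup.closure (S : Set Γ)).subtype
      (Subgroup.subtype_injective _)).symm.toMonoidHom) (MulEquiv.surjective _)
  have h1 := vn_of_pg d _ (max_quot hmaxH _) hpg
  have h2 := (h1.comap (QuotientGroup.mk' (N.subgroupOf (Subgroup.closure (S : Set Γ))))).map
    (Subgroup.closure (S : Set Γ)).subtype (Subgroup.subtype_injective _)
  have e2 : (⊥ : Subgroup (Subgroup.closure (S : Set Γ) ⧸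
      N.subgroupOf (Subgroup.closure (S : Set Γ)))).comap
      (QuotientGroup.mk' (N.subgroupOf (Subgroup.closure (S : Set Γ)))) =
      N.subgroupOf (Subgroup.closure (S : Set Γ)) := by
    rw [MonoidHom.comap_bot, QuotientGroup.ker_mk']
  have e3 : (⊤ : Subgroup (Subgroup.closure (S : Set Γ))).map
      (Subgroup.closure (S : Set Γ)).subtype = Subgroup.closure (S : Set Γ) := by
    rw [← MonoidHom.range_eq_map, Subgroup.range_subtype]
  rw [Subgroup.comap_top, e2, e3, Subgroup.subgroupOf_map_subtype] at h2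
  exact h2.mono_right inf_le_left

end H85.TN
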