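import Pool.Agent.H85.TN.Isd
import Pool.Agent.H85.TN.Rel
import Pool.Agent.H85.TA.Core

/-!
# [H85 TN CRN] slow orbit trees: the group is virtually nilpotent on the orbit closure, 80-120 lines (copy of TA/Core.lean)

* `vn_vertex`: copy of `va_vertex` (`Pool/Agent/H85/TA/Core.lean`): `S` generates `G ⊓ stabilizer v` (`hmax`), `d` from `hslow S`, `vn_of_sets` with `iso_setsN`
  (`Max (G ⊓ stabilizer v)` from `Max.mono`).
* `coreN`: copy of `core` with `VN.conj`, `VN.mono_left`, `VN.iInf`, `VN.congr`/`VN.mono_right`, `VN.of_relIndex` instead of the rules for `VA`. At the end: `VN K (⨅ u, KF G η u)`; an element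
  of `K ⊓ ⨅ u, KF G η u` is in `OF G η`; with `A ≤ K` the term of the lower central series is in `A ≤ K` and in the infimum, so in `OF G η`.
-/

set_option autoImplicit false

universe u v

namespace H85.TN

open H85.TA H85.TG

variable {X : Type u}

theorem vn_vertex {G : Subgroup (TreeAut X)} (hmax : H85.TA.Max G) {η : ℕ → X}
    (hfin : ∀ n, (T G η n).Finite) (hslow : SlowN G η) {n₀ : ℕ} {v : List X} (hvT : v ∈ T G η n₀)
    (hv : ∀ m, ∀ w ∈ T G η m, v <+: w → KF G η w = KF G η v) :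
    VN (G ⊓ MulAction.stabilizer (TreeAut X) v) (KF G η v) := by
  obtain ⟨S, hS⟩ := hmax (G ⊓ MulAction.stabilizer (TreeAut X) v) inf_le_left
  have hmem : ∀ s ∈ S, s ∈ G ∧ s • v = v := by
    intro s hs
    have h : s ∈ G ⊓ MulAction.stabilizer (TreeAut X) v := by
      rw [← hS]
      exact Subgroup.subset_closure hs
    exact ⟨h.1, MulAction.mem_stabilizer_iff.1 h.2⟩
  obtain ⟨d, hd, hsl⟩ := hslow S fun s hs => (hmem s hs).1
  refine vn_of_sets _ _ ?_ ?_ (hmax.mono inf_le_left) S hS d (by omega) fun c => ?_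
  · intro g hg
    exact ⟨hg.1, MulAction.mem_stabilizer_iff.2 (hg.2 n₀ v hvT (List.prefix_refl v))⟩
  · intro h hh k hk
    have h1 : h • v = v := MulAction.mem_stabilizer_iff.1 hh.2
    refine ⟨G.mul_mem (G.mul_mem hh.1 hk.1) (G.inv_mem hh.1), fun n u hu hvu => ?_⟩
    have h2 : h⁻¹ • v = v := by rw [inv_smul_eq_iff, h1]
    have h3 := prefix_smul h⁻¹ hvu
    rw [h2] at h3
    rw [mul_smul, mul_smul, hk.2 n (h⁻¹ • u) (T_smul (G.inv_mem hh.1) hu) h3, smul_inv_smul]
  · obtain ⟨A, h1, h2, h3, h4⟩ := iso_setsN hfin hvT hv S hmem d hd hsl c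
    exact ⟨A, h1, fun a ha => ⟨(h2 a ha).1, MulAction.mem_stabilizer_iff.2 (h2 a ha).2⟩, h3, h4⟩

theorem coreN {G : Subgroup (TreeAut X)} (hmax : H85.TA.Max G) {η : ℕ → X}
    (hfin : ∀ n, (T G η n).Finite) (hslow : SlowN G η) : VN G (OF G η) := by
  obtain ⟨n₀, v, hvT, hv⟩ := exists_top_vertex hmax η
  have hva := vn_vertex hmax hfin hslow hvT hv
  have hfinT : Finite (T G η n₀) := (hfin n₀).to_subtype
  -- conjugates
  have h1 : ∀ u : T G η n₀,
      VN (G ⊓ MulAction.stabilizer (TreeAut X) u.1) (KF G η u.1) := by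
    rintro ⟨u, hu⟩
    obtain ⟨g, hg, hgv⟩ := T_trans hvT hu
    refine hva.conj g ?_ ?_
    · intro x
      simp only [Subgroup.mem_inf, MulAction.mem_stabilizer_iff]
      constructor
      · rintro ⟨hx, hxu⟩
        refine ⟨G.mul_mem (G.mul_mem (G.inv_mem hg) hx) hg, ?_⟩
        rw [mul_smul, mul_smul, hgv, hxu, inv_smul_eq_iff, hgv]
      · rintro ⟨hx, hxv⟩
        constructor
        · have h2 := G.mul_mem (G.mul_mem hg hx) (G.inv_mem hg)
          have h3 : g * (g⁻¹ * x * g) * g⁻¹ = x := by group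
          rwa [h3] at h2
        · rw [mul_smul, mul_smul, hgv, inv_smul_eq_iff, hgv] at hxv
          exact hxv
    · intro x hx
      refine ⟨G.mul_mem (G.mul_mem hg hx.1) (G.inv_mem hg), fun n w hw huw => ?_⟩
      have h3 := prefix_smul g⁻¹ huw
      have h4 : g⁻¹ • u = v := by rw [inv_smul_eq_iff, hgv]
      rw [h4] at h3
      rw [mul_smul, mul_smul, hx.2 n (g⁻¹ • w) (T_smul (G.inv_mem hg) hw) h3, smul_inv_smul]
  -- the stabilisers have finite index
  have h2 : ∀ u : T G η n₀, (MulAction.stabilizer (TreeAut X) u.1).relIndex G ≠ 0 := by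
    rintro ⟨u, hu⟩
    have h3 : (MulAction.stabilizer (TreeAut X) u).subgroupOf G = MulAction.stabilizer G u := by
      ext g
      rw [Subgroup.mem_subgroupOf, MulAction.mem_stabilizer_iff, MulAction.mem_stabilizer_iff]
      rfl
    rw [Subgroup.relIndex, h3, MulAction.index_stabilizer]
    have h4 : MulAction.orbit G u ⊆ T G η n₀ := by
      rintro _ ⟨g, rfl⟩
      exact T_smul g.2 hu
    have h5 : (MulAction.orbit G u).Nonempty := MulAction.nonempty_orbit u
    exact (Set.ncard_pos ((hfin n₀).subset h4)).2 h5 |>.ne'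
  let K : Subgroup (TreeAut X) := G ⊓ ⨅ u : T G η n₀, MulAction.stabilizer (TreeAut X) u.1
  have hK : K ≤ G := inf_le_left
  have hKi : K.relIndex G ≠ 0 := by
    refine Subgroup.relIndex_inf_ne_zero ?_ (Subgroup.relIndex_iInf_ne_zero h2)
    rw [Subgroup.relIndex_self]
    exact one_ne_zero
  have hKle : ∀ u : T G η n₀, K ≤ G ⊓ MulAction.stabilizer (TreeAut X) u.1 := fun u =>
    le_inf inf_le_left (inf_le_right.trans (iInf_le _ u))
  have h6 : VN K (⨅ u : T G η n₀, KF G η u.1) := VN.iInf fun u => (h1 u).mono_left (hKle u)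
  refine VN.of_relIndex (K' := K) ?_ hK hKi
  obtain ⟨A, hA, hi, c, hc⟩ := h6
  refine ⟨A, hA, hi, c, fun g hg => ?_⟩
  have h7 := hc hg
  rw [Subgroup.mem_iInf] at h7
  refine ⟨(h7 ⟨v, hvT⟩).1, fun n u hu => ?_⟩
  rcases le_total n n₀ with h | h
  · obtain ⟨w, hw, huw⟩ := T_ext h hu
    exact fix_of_prefix huw ((h7 ⟨w, hw⟩).2 n₀ w hw (List.prefix_refl w))
  · exact (h7 ⟨u.take n₀, T_take h hu⟩).2 n u hu (List.take_prefix _ _)

end H85.TN
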