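import Pool.Agent.H85.TG.Jd
import Pool.Agent.H85.TG.Kb

/-!
# Definitions for virtually nilpotent conclusions

* `VN K N`: a subgroup `A` of finite index in `K` is nilpotent modulo `N`: some term of the lower central
  series of `A` (`Subgroup.lowerCentralSeries` of Mathlib) is in `N`.
* `ZS C D`: the elements of the group which normalise `C` and `D` and centralise `C` modulo `D`.
-/

set_option autoImplicit false

universe u v

namespace H85.TN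

open H85.TA H85.TG

/-- `K` modulo `N` is virtually nilpotent -/
def VN {Γ : Type u} [Group Γ] (K N : Subgroup Γ) : Prop :=
  ∃ A : Subgroup Γ, A ≤ K ∧ A.relIndex K ≠ 0 ∧ ∃ c : ℕ, A.lowerCentralSeries c ≤ N

/-- the elements which normalise `C` and `D` and act trivially on `C` modulo `D` (for `D ≤ C`) -/
def ZS {Γ : Type u} [Group Γ] (C D : Subgroup Γ) : Subgroup Γ where
  carrier := {g | (∀ x, g * x * g⁻¹ ∈ C ↔ x ∈ C) ∧ (∀ x, g * x * g⁻¹ ∈ D ↔ x ∈ D) ∧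
    ∀ x ∈ C, x * g * x⁻¹ * g⁻¹ ∈ D}
  mul_mem' := by
    rintro a b ⟨ha, ha', ha''⟩ ⟨hb, hb', hb''⟩
    have h1 : ∀ x, a * b * x * (a * b)⁻¹ = a * (b * x * b⁻¹) * a⁻¹ := fun x => by group
    refine ⟨fun x => ?_, fun x => ?_, fun x hx => ?_⟩
    · rw [h1, ha, hb]
    · rw [h1, ha', hb']
    · have h2 : x * (a * b) * x⁻¹ * (a * b)⁻¹ =
          x * a * x⁻¹ * a⁻¹ * (a * (x * b * x⁻¹ * b⁻¹) * a⁻¹) := by group
      rw [h2]
      exact D.mul_mem (ha'' x hx) ((ha' _).2 (hb'' x hx))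
  one_mem' := by
    refine ⟨fun x => by simp, fun x => by simp, fun x _ => ?_⟩
    simp [D.one_mem]
  inv_mem' := by
    rintro a ⟨ha, ha', ha''⟩
    have h1 : ∀ x, a * (a⁻¹ * x * a⁻¹⁻¹) * a⁻¹ = x := fun x => by group
    refine ⟨fun x => ?_, fun x => ?_, fun x hx => ?_⟩
    · rw [← ha (a⁻¹ * x * a⁻¹⁻¹), h1]
    · rw [← ha' (a⁻¹ * x * a⁻¹⁻¹), h1]
    · rw [← ha']
      have h2 : a * (x * a⁻¹ * x⁻¹ * a⁻¹⁻¹) * a⁻¹ = (x * a * x⁻¹ * a⁻¹)⁻¹ := by group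
      rw [h2]
      exact D.inv_mem (ha'' x hx)

theorem mem_ZS {Γ : Type u} [Group Γ] {C D : Subgroup Γ} {g : Γ} :
    g ∈ ZS C D ↔ (∀ x, g * x * g⁻¹ ∈ C ↔ x ∈ C) ∧ (∀ x, g * x * g⁻¹ ∈ D ↔ x ∈ D) ∧
      ∀ x ∈ C, x * g * x⁻¹ * g⁻¹ ∈ D := Iff.rfl

end H85.TN
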