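import Pool.Agent.H85.TG.Ge

/-!
# [H85 TN DST] polynomial growth gives relations with small coefficients
-/

set_option autoImplicit false

universe u v

namespace H85.TN

open H85.TA H85.TG
open scoped Pointwise

private theorem exp_pol (D d : ℕ) : ∃ N : ℕ, 0 < N ∧ ∀ n ≥ N, D * n ^ d < 2 ^ n := by
  have h1 := tendsto_pow_const_div_const_pow_of_one_lt d (r := (2 : ℝ)) (by norm_num)
  have h2 : (0 : ℝ) < 1 / ((D : ℝ) + 1) := by positivity
  have h3 := h1.eventually (gt_mem_nhds h2)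
  obtain ⟨N, hN⟩ := Filter.eventually_atTop.1 h3
  refine ⟨N + 1, Nat.succ_pos _, fun n hn => ?_⟩
  have h4 := hN n (by omega)
  rw [div_lt_div_iff₀ (by positivity) (by positivity), one_mul] at h4
  have h5 : ((D * n ^ d : ℕ) : ℝ) < ((2 ^ n : ℕ) : ℝ) := by
    push_cast
    have h6 : (0 : ℝ) ≤ (n : ℝ) ^ d := by positivity
    nlinarith
  exact_mod_cast h5

private theorem bp_eq' {Q : Type u} [Group Q] [h : DecidableEq Q] (S : Finset Q) (r : ℕ) :
    bp S r = (ball S) ^ r := by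
  have h1 : (fun a b : Q => Classical.propDecidable (a = b)) = h := Subsingleton.elim _ _
  unfold bp
  rw [h1]

theorem dst {Q : Type u} [Group Q] {d : ℕ} (h : PG Q d) {M : Type v} [AddCommGroup M]
    (ι : Multiplicative M →* Q) (hι : Function.Injective ι) (t : Q) (f : Module.End ℤ M)
    (hf : ∀ x : M, ι (Multiplicative.ofAdd (f x)) = t * ι (Multiplicative.ofAdd x) * t⁻¹)
    (j : ℕ) (v : M) : ∃ s s' : Finset ℕ, s ≠ s' ∧
      ∑ i ∈ s, ((f ^ j) ^ i) v = ∑ i ∈ s', ((f ^ j) ^ i) v := by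
  classical
  by_contra hcon
  push Not at hcon
  obtain ⟨a, ha⟩ : ∃ a, a = ι (Multiplicative.ofAdd v) := ⟨_, rfl⟩
  obtain ⟨T, hT⟩ : ∃ T : Finset Q, T = {a, t} := ⟨_, rfl⟩
  have hbp : ∀ r, bp T r = (ball T) ^ r := fun r => bp_eq' T r
  have hat : a ∈ ball T := by
    simp [ball, hT]
  have h1t : (1 : Q) ∈ ball T := one_mem_ball T
  have htt : t ∈ ball T := by
    simp [ball, hT]
  have htt' : t⁻¹ ∈ ball T := by
    simp [ball, hT]
  have hconj : ∀ m : ℕ, ι (Multiplicative.ofAdd ((f ^ m) v)) = t ^ m * a * (t ^ m)⁻¹ := by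
    intro m
    induction m with
    | zero => simp [ha]
    | succ m ih =>
      rw [pow_succ', Module.End.mul_apply, hf, ih, pow_succ']
      group
  have key : ∀ n : ℕ, ∀ s ⊆ Finset.range n, ∃ w ∈ (ball T) ^ (n * (j + 1)),
      ι (Multiplicative.ofAdd (∑ i ∈ s, ((f ^ j) ^ i) v)) = w * (t ^ (j * n))⁻¹ := by
    intro n
    induction n with
    | zero =>
      intro s hs
      have h1 : s = ∅ := by
        rw [Finset.range_zero] at hs
        exact Finset.subset_empty.1 hs
      refine ⟨1, by simp, ?_⟩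
      rw [h1]
      simp
    | succ n ih =>
      intro s hs
      have hs0 : s.erase n ⊆ Finset.range n := by
        intro i hi
        have h1 := hs (Finset.mem_of_mem_erase hi)
        have h2 := Finset.ne_of_mem_erase hi
        rw [Finset.mem_range] at h1 ⊢
        omega
      obtain ⟨w, hw, hw'⟩ := ih _ hs0
      have hε : ∃ ε ∈ ball T, ι (Multiplicative.ofAdd (∑ i ∈ s, ((f ^ j) ^ i) v)) =
          ι (Multiplicative.ofAdd (∑ i ∈ s.erase n, ((f ^ j) ^ i) v)) *
            (t ^ (j * n) * ε * (t ^ (j * n))⁻¹) := by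
        by_cases hn : n ∈ s
        · refine ⟨a, hat, ?_⟩
          rw [← Finset.sum_erase_add s _ hn, ofAdd_add, map_mul, ← pow_mul, hconj]
        · refine ⟨1, h1t, ?_⟩
          rw [Finset.erase_eq_of_notMem hn]
          simp
      obtain ⟨ε, hε1, hε2⟩ := hε
      refine ⟨w * ε * t ^ j, ?_, ?_⟩
      · have h1 : (n + 1) * (j + 1) = n * (j + 1) + 1 + j := by ring
        rw [h1, pow_add, pow_add, pow_one]
        exact Finset.mul_mem_mul (Finset.mul_mem_mul hw hε1) (Finset.pow_mem_pow htt)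
      · rw [hε2, hw']
        have h1 : j * (n + 1) = j * n + j := by ring
        rw [h1, pow_add]
        group
  have key2 : ∀ n : ℕ, ∀ s ⊆ Finset.range n,
      ι (Multiplicative.ofAdd (∑ i ∈ s, ((f ^ j) ^ i) v)) ∈ (ball T) ^ (n * (2 * j + 1)) := by
    intro n s hs
    obtain ⟨w, hw, hw'⟩ := key n s hs
    rw [hw']
    have h1 : n * (2 * j + 1) = n * (j + 1) + j * n := by ring
    rw [h1, pow_add, ← inv_pow]
    exact Finset.mul_mem_mul hw (Finset.pow_mem_pow htt')
  have key3 : ∀ n : ℕ, 2 ^ n ≤ ((ball T) ^ (n * (2 * j + 1))).card := by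
    intro n
    have h1 : (Finset.range n).powerset.card = 2 ^ n := by
      rw [Finset.card_powerset, Finset.card_range]
    rw [← h1]
    refine Finset.card_le_card_of_injOn
      (fun s => ι (Multiplicative.ofAdd (∑ i ∈ s, ((f ^ j) ^ i) v))) ?_ ?_
    · intro s hs
      exact key2 n s (Finset.mem_powerset.1 hs)
    · intro s _ s' _ hss
      by_contra hne
      exact hcon s s' hne (Multiplicative.ofAdd.injective (hι hss))
  obtain ⟨C, hC⟩ := h T
  obtain ⟨N, hN0, hN⟩ := exp_pol (C * (2 * (2 * j + 1)) ^ d) d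
  obtain ⟨r, hr, hr'⟩ := hC (N * (2 * j + 1))
  rw [hbp] at hr'
  have hj : 0 < 2 * j + 1 := Nat.succ_pos _
  obtain ⟨n, hn⟩ : ∃ n, n = r / (2 * j + 1) := ⟨_, rfl⟩
  have h1 : n * (2 * j + 1) ≤ r := by
    rw [hn]
    exact Nat.div_mul_le_self r (2 * j + 1)
  have h2 : r < n * (2 * j + 1) + (2 * j + 1) := by
    rw [hn]
    exact Nat.lt_div_mul_add hj
  have h3 : N ≤ n := by
    rw [hn]
    exact (Nat.le_div_iff_mul_le hj).2 hr
  have h4 := hN n h3
  have h5 : 2 ^ n ≤ C * r ^ d :=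
    (key3 n).trans ((Finset.card_le_card (pow_mono T h1)).trans hr')
  have h6 : r ≤ 2 * (2 * j + 1) * n := by
    have h7 : 1 ≤ n := by omega
    nlinarith
  have h7 : C * r ^ d ≤ C * (2 * (2 * j + 1)) ^ d * n ^ d := by
    rw [mul_assoc, ← mul_pow]
    exact Nat.mul_le_mul_left _ (Nat.pow_le_pow_left h6 d)
  omega

end H85.TN
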