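import Pool.Agent.H85.TN.Pws
import Pool.Agent.H85.TA.Iso

/-!
# [H85 TN ISD] the isoperimetric sets, general exponent, 60-100 lines (copy of TA/Iso.lean)

`SlowN G η`: for every finite `S ⊆ G` there is `d ≥ 2` such that for all `c`, `n₀` there is `n ≥ n₀` with `c * (∑ s ∈ S, #{w ∈ T_n : sec s w ≠ 1}) ^ d < #T_n ^ (d - 1)`.
* `exists_classN`: copy of `exists_class` (`Pool/Agent/H85/TA/Iso.lean`); only the step `h3` changes: if `C.card ^ (d-1) ≤ c * (b C) ^ d` for all classes, then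
  `V.card ^ (d-1) ≤ c * (∑ C, b C) ^ d` by `pow_sum_le`.
* `iso_setsN`: copy of `iso_sets`; `hslow` is used for the constant `c * (T G η n₀).ncard ^ (d - 1)` (`card_mul`: `#T_n = #T_{n₀} * #V`, `Nat.mul_pow`, cancel
  `(#T_{n₀}) ^ (d-1) > 0`), everything else is the same. Here `S` and `d` are given with the property of `SlowN` for this `S`.
-/

set_option autoImplicit false

universe u v

namespace H85.TN

open H85.TA

variable {X : Type u}

/-- the levels of the orbit tree of `η` are large compared with the activity to some power `d / (d - 1)` -/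
def SlowN (G : Subgroup (TreeAut X)) (η : ℕ → X) : Prop :=
  ∀ S : Finset (TreeAut X), (∀ s ∈ S, s ∈ G) → ∃ d : ℕ, 2 ≤ d ∧ ∀ c n₀ : ℕ, ∃ n ≥ n₀,
    c * (∑ s ∈ S, Set.ncard {w | w ∈ T G η n ∧ sec s w ≠ 1}) ^ d < (T G η n).ncard ^ (d - 1)

open Classical in
/-- some class is large compared with its boundary -/
theorem exists_classN (G : Subgroup (TreeAut X)) (v : List X) (V : Finset (List X))
    (S : Finset (TreeAut X)) (c d : ℕ) (hd : 2 ≤ d)
    (h : c * (∑ s ∈ S, (V.filter fun w => sec s w ≠ 1).card) ^ d < V.card ^ (d - 1)) :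
    ∃ w ∈ V, c * (∑ s ∈ S, ((V.filter fun w' => Rl G v w w').filter fun w' => sec s w' ≠ 1).card) ^ d <
      (V.filter fun w' => Rl G v w w').card ^ (d - 1) := by
  by_contra hcon
  push Not at hcon
  let Cl : List X → Finset (List X) := fun w => V.filter fun w' => Rl G v w w'
  have hCl : ∀ w w', w' ∈ V → (Cl w' = Cl w ↔ Rl G v w w') := by
    intro w w' hw'
    constructor
    · intro h1
      have h2 : w' ∈ Cl w' := Finset.mem_filter.2 ⟨hw', Rl_refl G v w'⟩
      rw [h1] at h2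
      exact (Finset.mem_filter.1 h2).2
    · intro h1
      ext u
      simp only [Cl, Finset.mem_filter]
      constructor
      · rintro ⟨h2, h3⟩
        exact ⟨h2, Rl_trans h1 h3⟩
      · rintro ⟨h2, h3⟩
        exact ⟨h2, Rl_trans (Rl_symm h1) h3⟩
  have hfib : ∀ w ∈ V, (V.filter fun w' => Cl w' = Cl w) = Cl w := by
    intro w hw
    ext u
    simp only [Finset.mem_filter]
    constructor
    · rintro ⟨h1, h2⟩
      exact Finset.mem_filter.2 ⟨h1, (hCl w u h1).1 h2⟩
    · intro h1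
      have h2 := Finset.mem_filter.1 h1
      exact ⟨h2.1, (hCl w u h2.1).2 h2.2⟩
  let b : Finset (List X) → ℕ := fun C => ∑ s ∈ S, (C.filter fun w' => sec s w' ≠ 1).card
  have h1 : V.card = ∑ C ∈ V.image Cl, C.card := by
    rw [Finset.card_eq_sum_card_image Cl V]
    refine Finset.sum_congr rfl fun C hC => ?_
    obtain ⟨w, hw, rfl⟩ := Finset.mem_image.1 hC
    rw [hfib w hw]
  have h2 : ∑ s ∈ S, (V.filter fun w => sec s w ≠ 1).card = ∑ C ∈ V.image Cl, b C := by
    simp only [b]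
    rw [Finset.sum_comm]
    refine Finset.sum_congr rfl fun s _ => ?_
    rw [Finset.card_eq_sum_card_fiberwise (f := Cl) (t := V.image Cl) fun w hw =>
      Finset.mem_image_of_mem Cl (Finset.mem_filter.1 hw).1]
    refine Finset.sum_congr rfl fun C hC => ?_
    obtain ⟨w, hw, rfl⟩ := Finset.mem_image.1 hC
    congr 1
    ext u
    simp only [Finset.mem_filter]
    constructor
    · rintro ⟨⟨h3, h4⟩, h5⟩
      exact ⟨Finset.mem_filter.2 ⟨h3, (hCl w u h3).1 h5⟩, h4⟩
    · rintro ⟨h3, h4⟩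
      have h5 := Finset.mem_filter.1 h3
      exact ⟨⟨h5.1, h4⟩, (hCl w u h5.1).2 h5.2⟩
  have h3 : V.card ^ (d - 1) ≤ c * (∑ C ∈ V.image Cl, b C) ^ d := by
    rw [h1]
    refine pow_sum_le (V.image Cl) (fun C => C.card) b c d hd fun C hC => ?_
    obtain ⟨w, hw, rfl⟩ := Finset.mem_image.1 hC
    exact hcon w hw
  rw [h2] at h
  exact absurd h (not_lt.2 h3)

open Classical in
theorem iso_setsN {G : Subgroup (TreeAut X)} {η : ℕ → X} (hfin : ∀ n, (T G η n).Finite)
    {n₀ : ℕ} {v : List X} (hvT : v ∈ T G η n₀)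
    (hv : ∀ m, ∀ w ∈ T G η m, v <+: w → KF G η w = KF G η v)
    (S : Finset (TreeAut X)) (hS : ∀ s ∈ S, s ∈ G ∧ s • v = v) (d : ℕ) (hd : 2 ≤ d)
    (hslow : ∀ c n₁ : ℕ, ∃ n ≥ n₁,
      c * (∑ s ∈ S, Set.ncard {w | w ∈ T G η n ∧ sec s w ≠ 1}) ^ d < (T G η n).ncard ^ (d - 1))
    (c : ℕ) :
    ∃ A : Finset (TreeAut X), A.Nonempty ∧ (∀ a ∈ A, a ∈ G ∧ a • v = v) ∧
      (∀ a ∈ A, ∀ b ∈ A, a⁻¹ * b ∈ KF G η v → a = b) ∧
      c * (∑ s ∈ S, (A.filter fun a => ∀ b ∈ A, b⁻¹ * (s * a) ∉ KF G η v).card) ^ d <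
        A.card ^ (d - 1) := by
  obtain ⟨n, hn, hlt⟩ := hslow (c * (T G η n₀).ncard ^ (d - 1)) n₀
  let V : Finset (List X) := (hfin n).toFinset.filter fun w => v <+: w
  have hVmem : ∀ w, w ∈ V ↔ w ∈ T G η n ∧ v <+: w := fun w => by
    rw [Finset.mem_filter, Set.Finite.mem_toFinset]
  have hVcard : Set.ncard {w | w ∈ T G η n ∧ v <+: w} = V.card := by
    rw [← Set.ncard_coe_finset]
    congr 1
    ext w
    rw [Set.mem_ofPred_eq, Finset.mem_coe, hVmem]
  have h1 : c * (∑ s ∈ S, (V.filter fun w => sec s w ≠ 1).card) ^ d < V.card ^ (d - 1) := by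
    rw [card_mul hn (hfin n) hvT, hVcard, mul_pow] at hlt
    have h2 : ∑ s ∈ S, (V.filter fun w => sec s w ≠ 1).card ≤
        ∑ s ∈ S, Set.ncard {w | w ∈ T G η n ∧ sec s w ≠ 1} := by
      refine Finset.sum_le_sum fun s _ => ?_
      rw [← Set.ncard_coe_finset]
      refine Set.ncard_le_ncard ?_ ((hfin n).subset fun w hw => hw.1)
      intro w hw
      have h3 := Finset.mem_filter.1 (Finset.mem_coe.1 hw)
      exact ⟨((hVmem w).1 h3.1).1, h3.2⟩
    have h4 : (T G η n₀).ncard ^ (d - 1) * (c * (∑ s ∈ S, (V.filter fun w => sec s w ≠ 1).card) ^ d) <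
        (T G η n₀).ncard ^ (d - 1) * V.card ^ (d - 1) := by
      refine lt_of_le_of_lt ?_ hlt
      calc (T G η n₀).ncard ^ (d - 1) * (c * (∑ s ∈ S, (V.filter fun w => sec s w ≠ 1).card) ^ d)
          = c * (T G η n₀).ncard ^ (d - 1) * (∑ s ∈ S, (V.filter fun w => sec s w ≠ 1).card) ^ d := by
            ring
        _ ≤ _ := Nat.mul_le_mul_left _ (Nat.pow_le_pow_left h2 d)
    exact lt_of_mul_lt_mul_left h4 (Nat.zero_le _)
  obtain ⟨w, hwV, hw⟩ := exists_classN G v V S c d hd h1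
  have hwT := ((hVmem w).1 hwV).1
  have hvw := ((hVmem w).1 hwV).2
  let C : Finset (List X) := V.filter fun w' => Rl G v w w'
  have hCmem : ∀ w' ∈ C, Rl G v w w' := fun w' hw' => (Finset.mem_filter.1 hw').2
  have hCmem' : ∀ w', Rl G v w w' → w' ∈ C := by
    intro w' hw'
    refine Finset.mem_filter.2 ⟨(hVmem w').2 ?_, hw'⟩
    obtain ⟨g, ⟨h1, h2⟩, h3, -⟩ := hw'
    rw [← h3]
    refine ⟨T_smul h1 hwT, ?_⟩
    have h4 := prefix_smul g hvw
    rwa [h2] at h4
  choose! g hg using hCmem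
  have hginj : Set.InjOn g (C : Set (List X)) := by
    intro a ha b hb hab
    rw [← (hg a ha).2.1, ← (hg b hb).2.1, hab]
  have hcard : (C.image g).card = C.card := Finset.card_image_of_injOn hginj
  refine ⟨C.image g, ?_, ?_, ?_, ?_⟩
  · exact ⟨g w, Finset.mem_image_of_mem g (hCmem' w (Rl_refl G v w))⟩
  · intro a ha
    obtain ⟨w', hw', rfl⟩ := Finset.mem_image.1 ha
    exact (hg w' hw').1
  · intro a ha b hb hab
    obtain ⟨w', hw', rfl⟩ := Finset.mem_image.1 ha
    obtain ⟨w'', hw'', rfl⟩ := Finset.mem_image.1 hb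
    have h5 := hab.2 n w hwT hvw
    rw [mul_smul, inv_smul_eq_iff, (hg w' hw').2.1, (hg w'' hw'').2.1] at h5
    rw [h5]
  · rw [hcard]
    refine lt_of_le_of_lt (Nat.mul_le_mul_left c (Nat.pow_le_pow_left ?_ d)) hw
    refine Finset.sum_le_sum fun s hs => ?_
    refine Finset.card_le_card_of_injOn (fun a => a • w) ?_ ?_
    · intro a ha
      have ha1 := Finset.mem_filter.1 (Finset.mem_coe.1 ha)
      obtain ⟨w', hw', rfl⟩ := Finset.mem_image.1 ha1.1
      refine Finset.mem_coe.2 (Finset.mem_filter.2 ⟨?_, ?_⟩)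
      · change g w' • w ∈ C
        rw [(hg w' hw').2.1]
        exact hw'
      · change sec s (g w' • w) ≠ 1
        intro h6
        rw [(hg w' hw').2.1] at h6
        have h7 : Rl G v w (s • w') := by
          refine Rl_trans (w' := w') ⟨g w', hg w' hw'⟩ ?_
          exact ⟨s, hS s hs, rfl, h6⟩
        have h8 := hCmem' _ h7
        refine ha1.2 (g (s • w')) (Finset.mem_image_of_mem g h8) ?_
        have h9 := hg _ h8
        rw [← hv n w hwT hvw]
        refine ⟨G.mul_mem (G.inv_mem h9.1.1) (G.mul_mem (hS s hs).1 (hg w' hw').1.1), ?_⟩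
        intro m u _ hwu
        obtain ⟨t, rfl⟩ := hwu
        refine fix_append ?_ ?_ t
        · rw [mul_smul, mul_smul, (hg w' hw').2.1, inv_smul_eq_iff, h9.2.1]
        · rw [sec_mul, sec_mul, mul_smul, (hg w' hw').2.1, h6, (hg w' hw').2.2, one_mul, mul_one]
          have h10 := sec_inv (g (s • w')) w
          rw [h9.2.1, h9.2.2, inv_one] at h10
          exact h10
    · intro a ha a' ha' haa
      have ha1 := (Finset.mem_filter.1 (Finset.mem_coe.1 ha)).1
      have ha2 := (Finset.mem_filter.1 (Finset.mem_coe.1 ha')).1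
      obtain ⟨w', hw', rfl⟩ := Finset.mem_image.1 ha1
      obtain ⟨w'', hw'', rfl⟩ := Finset.mem_image.1 ha2
      change g w' • w = g w'' • w at haa
      rw [(hg w' hw').2.1, (hg w'' hw'').2.1] at haa
      rw [haa]

end H85.TN
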