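import Mathlib

/-!
# [H85 TN KRO] Kronecker's theorem for complex numbers
-/

set_option autoImplicit false

namespace H85.TN

open IntermediateField

theorem root_of_unity (l : ℂ) (h0 : l ≠ 0) (hint : IsIntegral ℤ l)
    (h : ∀ z : ℂ, Polynomial.aeval z (minpoly ℚ l) = 0 → ‖z‖ ≤ 1) :
    ∃ k : ℕ, 0 < k ∧ l ^ k = 1 := by
  have hq : IsIntegral ℚ l := hint.tower_top
  let K := IntermediateField.adjoin ℚ {l}
  haveI : FiniteDimensional ℚ K := IntermediateField.adjoin.finiteDimensional hq
  haveI : NumberField K := ⟨⟩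
  let x : K := IntermediateField.AdjoinSimple.gen ℚ l
  have hx : algebraMap K ℂ x = l := IntermediateField.AdjoinSimple.algebraMap_gen ℚ l
  have hx0 : x ≠ 0 := by
    intro h1
    rw [h1, map_zero] at hx
    exact h0 hx.symm
  have hxi : IsIntegral ℤ x := by
    have h1 : IsIntegral ℤ (algebraMap K ℂ x) := by
      rw [hx]
      exact hint
    exact (isIntegral_algebraMap_iff (algebraMap K ℂ).injective).1 h1
  obtain ⟨k, hk, hk'⟩ := NumberField.Embeddings.pow_eq_one_of_norm_le_one K ℂ hx0 hxi (by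
    intro φ
    apply h
    have h2 : minpoly ℚ l = minpoly ℚ x := by
      rw [← hx]
      exact minpoly.algebraMap_eq (algebraMap K ℂ).injective x
    rw [h2]
    have h3 := minpoly.aeval ℚ x
    have h4 : Polynomial.aeval ((φ.toRatAlgHom) x) (minpoly ℚ x) = 0 := by
      rw [Polynomial.aeval_algHom_apply, h3, map_zero]
    exact h4)
  refine ⟨k, hk, ?_⟩
  rw [← hx, ← map_pow, hk', map_one]

end H85.TN
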