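import Pool.Agent.H85.TN.Kro

/-!
# [H85 TN LNA] linear maps whose eigenvalues are roots of unity
-/

set_option autoImplicit false

universe u

namespace H85.TN

open Polynomial in
private theorem dvd_pow_of_roots (μ q : Polynomial ℚ) (hμ : μ ≠ 0) (hq : q ≠ 0)
    (h : ∀ l : ℂ, Polynomial.aeval l μ = 0 → Polynomial.aeval l q = 0) : μ ∣ q ^ μ.natDegree := by
  rw [← Polynomial.map_dvd_map' (algebraMap ℚ ℂ)]
  have h1 : (μ.map (algebraMap ℚ ℂ)).Splits := IsAlgClosed.splits _
  have hμ' : μ.map (algebraMap ℚ ℂ) ≠ 0 := (Polynomial.map_ne_zero_iff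
    (algebraMap ℚ ℂ).injective).2 hμ
  have hq' : q.map (algebraMap ℚ ℂ) ≠ 0 := (Polynomial.map_ne_zero_iff
    (algebraMap ℚ ℂ).injective).2 hq
  refine h1.dvd_of_roots_le_roots hμ' ?_
  rw [Polynomial.map_pow, Polynomial.roots_pow, Multiset.le_iff_count]
  intro l
  rw [Multiset.count_nsmul]
  by_cases hl : l ∈ (μ.map (algebraMap ℚ ℂ)).roots
  · have h2 : Polynomial.aeval l μ = 0 := by
      have h3 := (Polynomial.mem_roots hμ').1 hl
      rw [Polynomial.IsRoot.def, Polynomial.eval_map_algebraMap] at h3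
      exact h3
    have h4 : l ∈ (q.map (algebraMap ℚ ℂ)).roots := by
      rw [Polynomial.mem_roots hq', Polynomial.IsRoot.def, Polynomial.eval_map_algebraMap]
      exact h l h2
    have h5 : 1 ≤ Multiset.count l (q.map (algebraMap ℚ ℂ)).roots := Multiset.one_le_count_iff_mem.2 h4
    have h6 : Multiset.count l (μ.map (algebraMap ℚ ℂ)).roots ≤ μ.natDegree := by
      refine (Multiset.count_le_card _ _).trans ?_
      refine (Polynomial.card_roots' _).trans ?_
      rw [Polynomial.natDegree_map]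
    calc Multiset.count l (μ.map (algebraMap ℚ ℂ)).roots ≤ μ.natDegree * 1 := by
          rw [mul_one]
          exact h6
      _ ≤ μ.natDegree * Multiset.count l (q.map (algebraMap ℚ ℂ)).roots := Nat.mul_le_mul_left _ h5
  · rw [Multiset.count_eq_zero_of_notMem hl]
    exact Nat.zero_le _

theorem unipotent_rat {V : Type u} [AddCommGroup V] [Module ℚ V] [FiniteDimensional ℚ V]
    (g : Module.End ℚ V) (hg : Function.Injective g) (p : Polynomial ℤ) (hp : p.Monic)
    (hgp : Polynomial.aeval g (p.map (algebraMap ℤ ℚ)) = 0)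
    (h : ∀ l : ℂ, Polynomial.aeval l (minpoly ℚ g) = 0 → ‖l‖ ≤ 1) :
    ∃ k : ℕ, 0 < k ∧ ∃ m : ℕ, (g ^ k - 1) ^ m = 0 := by
  classical
  have hint : IsIntegral ℚ g := Algebra.IsIntegral.isIntegral g
  have hμ0 : minpoly ℚ g ≠ 0 := minpoly.ne_zero hint
  have hdvd : minpoly ℚ g ∣ p.map (algebraMap ℤ ℚ) := minpoly.dvd ℚ g hgp
  have hroot : ∀ l : ℂ, Polynomial.aeval l (minpoly ℚ g) = 0 → ∃ k : ℕ, 0 < k ∧ l ^ k = 1 := by
    intro l hl
    refine root_of_unity l ?_ ?_ ?_
    · rintro rfl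
      have h1 : (minpoly ℚ g).coeff 0 = 0 := by
        rw [Polynomial.aeval_def, Polynomial.eval₂_at_zero] at hl
        exact (algebraMap ℚ ℂ).injective (by rw [hl, map_zero])
      obtain ⟨ν, hν⟩ := Polynomial.X_dvd_iff.2 h1
      have hν0 : ν ≠ 0 := by
        rintro rfl
        rw [mul_zero] at hν
        exact hμ0 hν
      have h2 : Polynomial.aeval g ν = 0 := by
        ext x
        have h3 : g (Polynomial.aeval g ν x) = 0 := by
          have h4 := minpoly.aeval ℚ g
          rw [hν, map_mul, Polynomial.aeval_X] at h4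
          exact LinearMap.congr_fun h4 x
        exact hg (by rw [h3, LinearMap.zero_apply, map_zero])
      have h3 := Polynomial.natDegree_le_of_dvd (minpoly.dvd ℚ g h2) hν0
      rw [hν, Polynomial.natDegree_X_mul hν0] at h3
      omega
    · refine ⟨p, hp, ?_⟩
      obtain ⟨ν, hν⟩ := hdvd
      have h1 : Polynomial.aeval l (p.map (algebraMap ℤ ℚ)) = 0 := by
        rw [hν, map_mul, hl, zero_mul]
      rw [Polynomial.aeval_map_algebraMap] at h1
      exact h1
    · intro z hz
      apply h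
      obtain ⟨ν, hν⟩ := minpoly.dvd ℚ l hl
      rw [hν, map_mul, hz, zero_mul]
  choose! e he he' using hroot
  obtain ⟨k, hk⟩ : ∃ k : ℕ, k = ∏ l ∈ ((minpoly ℚ g).map (algebraMap ℚ ℂ)).roots.toFinset, e l :=
    ⟨_, rfl⟩
  have hμ' : (minpoly ℚ g).map (algebraMap ℚ ℂ) ≠ 0 := (Polynomial.map_ne_zero_iff
    (algebraMap ℚ ℂ).injective).2 hμ0
  have hmem : ∀ l, l ∈ ((minpoly ℚ g).map (algebraMap ℚ ℂ)).roots.toFinset ↔
      Polynomial.aeval l (minpoly ℚ g) = 0 := by
    intro l
    rw [Multiset.mem_toFinset, Polynomial.mem_roots hμ', Polynomial.IsRoot.def,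
      Polynomial.eval_map_algebraMap]
  have hk0 : 0 < k := by
    rw [hk]
    exact Finset.prod_pos fun l hl => he l ((hmem l).1 hl)
  have hX : (Polynomial.X ^ k - 1 : Polynomial ℚ) ≠ 0 := Polynomial.X_pow_sub_C_ne_zero hk0 1
  have h1 := dvd_pow_of_roots (minpoly ℚ g) (Polynomial.X ^ k - 1) hμ0 hX (by
    intro l hl
    have h2 : e l ∣ k := by
      rw [hk]
      exact Finset.dvd_prod_of_mem e ((hmem l).2 hl)
    obtain ⟨c, hc⟩ := h2
    rw [map_sub, map_pow, map_one, Polynomial.aeval_X, hc, pow_mul, he' l hl, one_pow, sub_self])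
  obtain ⟨ν, hν⟩ := h1
  refine ⟨k, hk0, (minpoly ℚ g).natDegree, ?_⟩
  have h2 := congrArg (Polynomial.aeval g) hν
  rw [map_mul, minpoly.aeval, zero_mul, map_pow, map_sub, map_pow, map_one, Polynomial.aeval_X] at h2
  exact h2

end H85.TN
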