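import Mathlib

/-!
# [H85 TN RTS] roots of polynomials with coefficients -1, 0, 1
-/

set_option autoImplicit false

namespace H85.TN

private theorem geo_lt (x : ℝ) (hx : 2 ≤ x) (n : ℕ) : ∑ i ∈ Finset.range n, x ^ i < x ^ n := by
  induction n with
  | zero => simp
  | succ n ih =>
    rw [Finset.sum_range_succ, pow_succ]
    have h1 : 0 < x ^ n := pow_pos (by linarith) n
    nlinarith

private theorem aux (s s' : Finset ℕ) (z : ℂ) (hz : 2 ≤ ‖z‖) (n : ℕ) (hn : n ∈ s) (hn' : n ∉ s')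
    (hmax : ∀ i, (i ∈ s ∧ i ∉ s') ∨ (i ∈ s' ∧ i ∉ s) → i ≤ n)
    (h : ∑ i ∈ s, z ^ i = ∑ i ∈ s', z ^ i) : False := by
  have h1 : ∑ i ∈ s \ s', z ^ i = ∑ i ∈ s' \ s, z ^ i := by
    have e1 := Finset.sum_inter_add_sum_sdiff s s' (fun i => z ^ i)
    have e2 := Finset.sum_inter_add_sum_sdiff s' s (fun i => z ^ i)
    rw [Finset.inter_comm] at e2
    rw [← e1, ← e2] at h
    exact add_left_cancel h
  have hns : n ∈ s \ s' := Finset.mem_sdiff.2 ⟨hn, hn'⟩
  have h2 : z ^ n = ∑ i ∈ s' \ s, z ^ i - ∑ i ∈ (s \ s').erase n, z ^ i := by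
    rw [← h1, ← Finset.add_sum_erase _ _ hns]
    ring
  have h3 : ‖z‖ ^ n ≤ ∑ i ∈ s' \ s, ‖z‖ ^ i + ∑ i ∈ (s \ s').erase n, ‖z‖ ^ i := by
    rw [← norm_pow, h2]
    refine (norm_sub_le _ _).trans (add_le_add ?_ ?_)
    · refine (norm_sum_le _ _).trans (Finset.sum_le_sum fun i _ => ?_)
      rw [norm_pow]
    · refine (norm_sum_le _ _).trans (Finset.sum_le_sum fun i _ => ?_)
      rw [norm_pow]
  have hdis : Disjoint (s' \ s) ((s \ s').erase n) := by
    rw [Finset.disjoint_left]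
    intro i hi hi'
    rw [Finset.mem_sdiff] at hi
    rw [Finset.mem_erase, Finset.mem_sdiff] at hi'
    exact hi.2 hi'.2.1
  rw [← Finset.sum_union hdis] at h3
  have h4 : (s' \ s) ∪ ((s \ s').erase n) ⊆ Finset.range n := by
    intro i hi
    rw [Finset.mem_union, Finset.mem_sdiff, Finset.mem_erase, Finset.mem_sdiff] at hi
    rw [Finset.mem_range]
    rcases hi with hi | hi
    · have := hmax i (Or.inr hi)
      rcases this.lt_or_eq with h5 | h5
      · exact h5
      · rw [h5] at hi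
        exact absurd hn hi.2
    · have := hmax i (Or.inl hi.2)
      exact lt_of_le_of_ne this hi.1
  have h5 := Finset.sum_le_sum_of_subset_of_nonneg h4
    (f := fun i => ‖z‖ ^ i) (fun i _ _ => pow_nonneg (norm_nonneg z) i)
  have h6 := geo_lt ‖z‖ hz n
  exact absurd (lt_of_le_of_lt (h3.trans h5) h6) (lt_irrefl _)

theorem root_lt_two (s s' : Finset ℕ) (hs : s ≠ s') (z : ℂ)
    (h : ∑ i ∈ s, z ^ i = ∑ i ∈ s', z ^ i) : ‖z‖ < 2 := by
  by_contra hcon
  push Not at hcon
  have hne : ((s \ s') ∪ (s' \ s)).Nonempty := by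
    rw [Finset.nonempty_iff_ne_empty]
    intro h0
    apply hs
    rw [Finset.union_eq_empty, Finset.sdiff_eq_empty_iff_subset,
      Finset.sdiff_eq_empty_iff_subset] at h0
    exact Finset.Subset.antisymm h0.1 h0.2
  obtain ⟨n, hn, hmax⟩ := Finset.exists_max_image _ (fun i => i) hne
  simp only [Finset.mem_union, Finset.mem_sdiff] at hn hmax
  rcases hn with hn | hn
  · exact aux s s' z hcon n hn.1 hn.2 hmax h
  · exact aux s' s z hcon n hn.1 hn.2 (fun i hi => hmax i hi.symm) h.symm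

end H85.TN
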