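import Pool.Agent.H85.TN.Lna
import Pool.Agent.H85.TN.Rts

/-!
# [H85 TN LNB] linear maps of ℤ-modules whose orbits have relations with small coefficients
-/

set_option autoImplicit false

universe u

namespace H85.TN

open TensorProduct

section

variable {M : Type u} [AddCommGroup M]

private noncomputable def pol (q : Finset ℕ × Finset ℕ) : Polynomial ℤ :=
  ∑ i ∈ q.1, Polynomial.X ^ i - ∑ i ∈ q.2, Polynomial.X ^ i

private theorem aeval_pol {A : Type*} [Ring A] [Algebra ℤ A] (g : A) (q : Finset ℕ × Finset ℕ) :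
    Polynomial.aeval g (pol q) = ∑ i ∈ q.1, g ^ i - ∑ i ∈ q.2, g ^ i := by
  simp [pol]

private theorem aeval_prod {A : Type*} [Ring A] [Algebra ℤ A] (g : A)
    (L : List (Finset ℕ × Finset ℕ)) :
    Polynomial.aeval g (L.map pol).prod =
      (L.map fun q => ∑ i ∈ q.1, g ^ i - ∑ i ∈ q.2, g ^ i).prod := by
  rw [map_list_prod, List.map_map]
  congr 1
  exact List.map_congr_left fun q _ => aeval_pol g q

private theorem prod_zero (l : List (Module.End ℤ M)) (hl : ∀ a ∈ l, ∀ b ∈ l, Commute a b)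
    (x : Module.End ℤ M) (hx : x ∈ l) (v : M) (hv : x v = 0) : l.prod v = 0 := by
  induction l with
  | nil => exact absurd hx List.not_mem_nil
  | cons y l ih =>
    rw [List.prod_cons]
    rcases List.mem_cons.1 hx with h1 | h1
    · have h2 : Commute y l.prod := Commute.list_prod_right _ _ fun b hb =>
        hl y List.mem_cons_self b (List.mem_cons_of_mem y hb)
      rw [h2.eq, Module.End.mul_apply, ← h1, hv, map_zero]
    · rw [Module.End.mul_apply, ih (fun a ha b hb => hl a (List.mem_cons_of_mem y ha) b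
        (List.mem_cons_of_mem y hb)) h1, map_zero]

theorem exists_prod [Module.Finite ℤ M] (f : Module.End ℤ M) (j : ℕ)
    (h : ∀ v : M, ∃ s s' : Finset ℕ, s ≠ s' ∧ ∑ i ∈ s, ((f ^ j) ^ i) v = ∑ i ∈ s', ((f ^ j) ^ i) v) :
    ∃ L : List (Finset ℕ × Finset ℕ), (∀ q ∈ L, q.1 ≠ q.2) ∧
      (L.map fun q => ∑ i ∈ q.1, (f ^ j) ^ i - ∑ i ∈ q.2, (f ^ j) ^ i).prod = 0 := by
  classical
  obtain ⟨S, hS⟩ := (Module.Finite.fg_top : (⊤ : Submodule ℤ M).FG)
  choose s s' hss hsum using h
  refine ⟨S.toList.map fun v => (s v, s' v), ?_, ?_⟩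
  · intro q hq
    obtain ⟨v, -, rfl⟩ := List.mem_map.1 hq
    exact hss v
  · have h1 : ∀ v : M, ((S.toList.map fun v => (s v, s' v)).map
        fun q => ∑ i ∈ q.1, (f ^ j) ^ i - ∑ i ∈ q.2, (f ^ j) ^ i).prod v = 0 := by
      intro v
      have hv : v ∈ Submodule.span ℤ (S : Set M) := by
        rw [hS]
        trivial
      induction hv using Submodule.span_induction with
      | zero => rw [map_zero]
      | add x y _ _ hx hy => rw [map_add, hx, hy, add_zero]
      | smul a x _ hx => rw [map_smul, hx, smul_zero]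
      | mem x hx =>
        refine prod_zero _ ?_ (∑ i ∈ s x, (f ^ j) ^ i - ∑ i ∈ s' x, (f ^ j) ^ i) ?_ x ?_
        · intro a ha b hb
          obtain ⟨q, -, rfl⟩ := List.mem_map.1 ha
          obtain ⟨q', -, rfl⟩ := List.mem_map.1 hb
          rw [← aeval_pol, ← aeval_pol]
          exact (Commute.all (pol q) (pol q')).map (Polynomial.aeval (f ^ j))
        · refine List.mem_map.2 ⟨(s x, s' x), ?_, rfl⟩
          refine List.mem_map.2 ⟨x, ?_, rfl⟩
          exact Finset.mem_toList.2 (Finset.mem_coe.1 hx)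
        · rw [LinearMap.sub_apply, LinearMap.sum_apply, LinearMap.sum_apply, hsum x, sub_self]
    exact LinearMap.ext h1

private theorem aeval_base (f : Module.End ℤ M) (P : Polynomial ℤ) (hP : Polynomial.aeval f P = 0) :
    Polynomial.aeval (LinearMap.baseChange ℚ f) P = 0 := by
  have h1 := Polynomial.aeval_algHom_apply (Module.End.baseChangeHom ℤ ℚ M) f P
  rw [hP, map_zero] at h1
  exact h1

theorem root_le_one (f : Module.End ℤ M)
    (h : ∀ j : ℕ, ∃ L : List (Finset ℕ × Finset ℕ), (∀ q ∈ L, q.1 ≠ q.2) ∧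
      (L.map fun q => ∑ i ∈ q.1, (f ^ j) ^ i - ∑ i ∈ q.2, (f ^ j) ^ i).prod = 0) (l : ℂ)
    (hl : Polynomial.aeval l (minpoly ℚ (LinearMap.baseChange ℚ f)) = 0) : ‖l‖ ≤ 1 := by
  by_contra hcon
  push Not at hcon
  obtain ⟨j, hj⟩ := pow_unbounded_of_one_lt 2 hcon
  obtain ⟨L, hL, hL0⟩ := h j
  have h1 : Polynomial.aeval (f ^ j) (L.map pol).prod = 0 := by
    rw [aeval_prod, hL0]
  have h2 := aeval_base (f ^ j) _ h1
  have h3 : LinearMap.baseChange ℚ (f ^ j) = (LinearMap.baseChange ℚ f) ^ j :=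
    map_pow (Module.End.baseChangeHom ℤ ℚ M) f j
  rw [h3] at h2
  have h4 : Polynomial.aeval (LinearMap.baseChange ℚ f)
      ((((L.map pol).prod).map (algebraMap ℤ ℚ)).comp (Polynomial.X ^ j)) = 0 := by
    rw [Polynomial.aeval_comp, map_pow, Polynomial.aeval_X, Polynomial.aeval_map_algebraMap]
    exact h2
  obtain ⟨ν, hν⟩ := minpoly.dvd ℚ (LinearMap.baseChange ℚ f) h4
  have h5 : Polynomial.aeval l
      ((((L.map pol).prod).map (algebraMap ℤ ℚ)).comp (Polynomial.X ^ j)) = 0 := by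
    rw [hν, map_mul, hl, zero_mul]
  rw [Polynomial.aeval_comp, map_pow, Polynomial.aeval_X, Polynomial.aeval_map_algebraMap,
    aeval_prod, List.prod_eq_zero_iff] at h5
  obtain ⟨q, hq, hq0⟩ := List.mem_map.1 h5
  have h6 := root_lt_two q.1 q.2 (hL q hq) (l ^ j) (sub_eq_zero.1 hq0)
  rw [norm_pow] at h6
  linarith

private theorem finite_order {T : Type u} [AddCommGroup T] [Finite T] (f : T → T)
    (hf : Function.Injective f) : ∃ k : ℕ, 0 < k ∧ ∀ x, f^[k] x = x := by
  let e : Equiv.Perm T := Equiv.ofBijective f (Finite.injective_iff_bijective.1 hf)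
  refine ⟨Nat.card (Equiv.Perm T), Nat.card_pos, fun x => ?_⟩
  have h1 : e ^ Nat.card (Equiv.Perm T) = 1 := pow_card_eq_one'
  have h2 : ∀ n : ℕ, ∀ y, (e ^ n) y = f^[n] y := by
    intro n
    induction n with
    | zero => intro y; rfl
    | succ n ih =>
      intro y
      rw [pow_succ, Equiv.Perm.mul_apply, ih, Function.iterate_succ_apply]
      rfl
  rw [← h2, h1]
  rfl

theorem unipotent_int [Module.Finite ℤ M] (f : Module.End ℤ M) (hf : Function.Injective f)
    (h : ∀ j : ℕ, ∀ v : M, ∃ s s' : Finset ℕ, s ≠ s' ∧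
      ∑ i ∈ s, ((f ^ j) ^ i) v = ∑ i ∈ s', ((f ^ j) ^ i) v) :
    ∃ k : ℕ, 0 < k ∧ ∃ m : ℕ, (f ^ k - 1) ^ m = 0 := by
  have hinj : Function.Injective (LinearMap.baseChange ℚ f) := by
    have h1 := Module.Flat.lTensor_preserves_injective_linearMap (M := ℚ) f hf
    exact h1
  obtain ⟨p, hp, hfp⟩ := LinearMap.exists_monic_and_aeval_eq_zero ℤ f
  have hgp : Polynomial.aeval (LinearMap.baseChange ℚ f) (p.map (algebraMap ℤ ℚ)) = 0 := by
    rw [Polynomial.aeval_map_algebraMap]
    exact aeval_base f p hfp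
  obtain ⟨k, hk, m, hm⟩ := unipotent_rat (LinearMap.baseChange ℚ f) hinj p hp hgp
    (root_le_one f fun j => exists_prod f j (h j))
  have hkm : LinearMap.baseChange ℚ ((f ^ k - 1) ^ m) = 0 := by
    have h1 : Module.End.baseChangeHom ℤ ℚ M ((f ^ k - 1) ^ m) =
        (Module.End.baseChangeHom ℤ ℚ M f ^ k - 1) ^ m := by
      rw [map_pow, map_sub, map_pow, map_one]
    exact h1.trans hm
  have htor : ∀ x : M, (((f ^ k - 1) ^ m) x) ∈ Submodule.torsion ℤ M := by
    intro x
    have h1 : TensorProduct.mk ℤ ℚ M 1 (((f ^ k - 1) ^ m) x) = 0 := by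
      have h2 := LinearMap.congr_fun hkm ((1 : ℚ) ⊗ₜ[ℤ] x)
      rw [LinearMap.baseChange_tmul] at h2
      exact h2
    haveI : IsLocalizedModule (nonZeroDivisors ℤ) (TensorProduct.mk ℤ ℚ M 1) := inferInstance
    obtain ⟨c, hc⟩ := (IsLocalizedModule.eq_zero_iff (nonZeroDivisors ℤ)
      (TensorProduct.mk ℤ ℚ M 1)).1 h1
    exact ⟨c, hc⟩
  have hfT : ∀ x ∈ Submodule.torsion ℤ M, f x ∈ Submodule.torsion ℤ M := by
    rintro x ⟨c, hc⟩
    refine ⟨c, ?_⟩
    have h1 : c • f x = f (c • x) := (map_smul f (c : ℤ) x).symm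
    rw [h1, hc, map_zero]
  haveI : Finite (Submodule.torsion ℤ M) :=
    Module.finite_of_fg_torsion _ (Submodule.torsion_isTorsion (R := ℤ) (M := M))
  obtain ⟨k', hk', hk'1⟩ := finite_order
    (fun x : Submodule.torsion ℤ M => (⟨f x, hfT x x.2⟩ : Submodule.torsion ℤ M))
    (fun x y hxy => Subtype.ext (hf (congrArg Subtype.val hxy)))
  have hit : ∀ n : ℕ, ∀ x : Submodule.torsion ℤ M,
      (((fun x : Submodule.torsion ℤ M => (⟨f x, hfT x x.2⟩ : Submodule.torsion ℤ M))^[n] x :
        Submodule.torsion ℤ M) : M) = (f ^ n) x := by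
    intro n
    induction n with
    | zero => intro x; rfl
    | succ n ih =>
      intro x
      rw [Function.iterate_succ_apply, ih, pow_succ]
      rfl
  have hid : ∀ x ∈ Submodule.torsion ℤ M, (f ^ k') x = x := by
    intro x hx
    have h1 := hit k' ⟨x, hx⟩
    rw [hk'1] at h1
    exact h1.symm
  have hid2 : ∀ n : ℕ, ∀ x ∈ Submodule.torsion ℤ M, ((f ^ k') ^ n) x = x := by
    intro n
    induction n with
    | zero => intro x _; rfl
    | succ n ih =>
      intro x hx
      rw [pow_succ, Module.End.mul_apply, hid x hx, ih x hx]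
  refine ⟨k * k', Nat.mul_pos hk hk', m + 1, ?_⟩
  obtain ⟨c, hc⟩ := pow_one_sub_dvd_pow_mul_sub_one (Polynomial.X : Polynomial ℤ) k k'
  have hc' := congrArg (Polynomial.aeval f) hc
  simp only [map_sub, map_pow, map_one, map_mul, Polynomial.aeval_X] at hc'
  have hcomm : Commute (f ^ k - 1) (Polynomial.aeval f c) := by
    have h1 := (Commute.all (Polynomial.X ^ k - 1 : Polynomial ℤ) c).map (Polynomial.aeval f)
    simpa using h1
  ext x
  rw [pow_succ', Module.End.mul_apply]
  have h1 : ((f ^ (k * k') - 1) ^ m) x ∈ Submodule.torsion ℤ M := by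
    rw [hc', hcomm.mul_pow, Module.End.mul_apply]
    exact htor _
  rw [LinearMap.sub_apply, Module.End.one_apply, mul_comm k k', pow_mul, hid2 k _ (by
    rw [← pow_mul, mul_comm k' k]
    exact h1), sub_self, LinearMap.zero_apply]

end

end H85.TN
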