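import Pool.Agent.H85.TN.Ext
import Pool.Agent.H85.TN.Apn

/-!
# [H85 TN SGN] faithful actions of polynomial growth, nilpotent conclusion, 100-150 lines (copies)

* `vn_core`: copy of `vp_core` (`Pool/Agent/H85/TG/Jc.lean`) with `VN` instead of `VP` and `vn_of_pg` instead of `vp_of_pg` (`pg_cosets`, `max_quot` as given).
* `vn_of_sg`: copy of `vp_of_sg` (`Pool/Agent/H85/TG/Jd.lean`) with `VN`.
-/

set_option autoImplicit false

universe u v

namespace H85.TN

open H85.TA H85.TG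

theorem vn_core {G : Type u} [Group G] (hmax : ∀ H : Subgroup G, H.FG) (H : Subgroup G)
    (hN : (Subgroup.normalizer (H : Set G)).FiniteIndex) {d : ℕ} (h : CG H d) :
    VN (⊤ : Subgroup G) H.normalCore := by
  let K : Subgroup G := (Subgroup.normalizer (H : Set G)).normalCore
  have hKn : K.Normal := Subgroup.normalCore_normal _
  have hKf : K.FiniteIndex := Subgroup.finiteIndex_normalCore _
  have hKN : K ≤ Subgroup.normalizer (H : Set G) := Subgroup.normalCore_le _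
  have hcn : ∀ x : G, ∀ k ∈ K, ∀ y ∈ K ⊓ cj H x, k * y * k⁻¹ ∈ K ⊓ cj H x := by
    intro x k hk y hy
    obtain ⟨hy1, hy2⟩ := mem_inf_cj.1 hy
    refine mem_inf_cj.2 ⟨K.mul_mem (K.mul_mem hk hy1) (K.inv_mem hk), ?_⟩
    have h2 : x⁻¹ * k * x ∈ Subgroup.normalizer (H : Set G) := by
      refine hKN ?_
      have h3 := hKn.conj_mem _ hk x⁻¹
      rwa [inv_inv] at h3
    have h4 := (Subgroup.mem_normalizer_iff.1 h2 _).1 hy2
    have h5 : x⁻¹ * (k * y * k⁻¹) * x = x⁻¹ * k * x * (x⁻¹ * y * x) * (x⁻¹ * k * x)⁻¹ := by group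
    rw [h5]
    exact h4
  have hvp : ∀ x : G, VN K (K ⊓ cj H x) := by
    intro x
    let L : Subgroup K := (K ⊓ cj H x).comap K.subtype
    have hLn : L.Normal := ⟨fun y hy k => hcn x k.1 k.2 y.1 hy⟩
    have hL : ∀ y : K, y ∈ L ↔ x⁻¹ * (y : G) * x ∈ H := fun y =>
      ⟨fun hy => (mem_inf_cj.1 hy).2, fun hy => mem_inf_cj.2 ⟨y.2, hy⟩⟩
    have h1 := vn_of_pg d (K ⧸ L) (max_quot (max_sub hmax K) L) (pg_cosets h K L x hL)
    have h2 := (h1.comap (QuotientGroup.mk' L)).map K.subtype K.subtype_injective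
    have e1 : (⊤ : Subgroup (K ⧸ L)).comap (QuotientGroup.mk' L) = ⊤ := Subgroup.comap_top _
    have e2 : (⊥ : Subgroup (K ⧸ L)).comap (QuotientGroup.mk' L) = L := by
      rw [MonoidHom.comap_bot, QuotientGroup.ker_mk']
    have e3 : (⊤ : Subgroup K).map K.subtype = K := by
      rw [← MonoidHom.range_eq_map, Subgroup.range_subtype]
    have e4 : L.map K.subtype = K ⊓ cj H x := by
      rw [Subgroup.map_comap_eq, Subgroup.range_subtype, ← inf_assoc, inf_idem]
    rwa [e1, e2, e3, e4] at h2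
  have hfinN : Finite (G ⧸ Subgroup.normalizer (H : Set G)) := inferInstance
  have h5 : VN K (⨅ u : G ⧸ Subgroup.normalizer (H : Set G), K ⊓ cj H u.out) :=
    VN.iInf fun u => hvp _
  have h6 : VN K H.normalCore := by
    refine h5.congr (le_antisymm ?_ ?_)
    · intro z hz
      obtain ⟨hz, hzK⟩ := Subgroup.mem_inf.1 hz
      refine Subgroup.mem_inf.2 ⟨fun b => ?_, hzK⟩
      rw [Subgroup.mem_iInf] at hz
      have h6 := (mem_inf_cj.1 (hz (b⁻¹ : G))).2
      have h7 : ((((b⁻¹ : G) : G ⧸ Subgroup.normalizer (H : Set G)).out : G) :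
          G ⧸ Subgroup.normalizer (H : Set G)) =
          ((b⁻¹ : G) : G ⧸ Subgroup.normalizer (H : Set G)) :=
        Quotient.out_eq _
      rw [QuotientGroup.eq] at h7
      set w := ((b⁻¹ : G) : G ⧸ Subgroup.normalizer (H : Set G)).out with hw
      have h8 := (Subgroup.mem_normalizer_iff.1 (Subgroup.inv_mem _ h7) _).1 h6
      have h9 : (w⁻¹ * b⁻¹)⁻¹ * (w⁻¹ * z * w) * (w⁻¹ * b⁻¹)⁻¹⁻¹ = b * z * b⁻¹ := by group
      rwa [h9] at h8
    · intro z hz
      obtain ⟨hz, hzK⟩ := Subgroup.mem_inf.1 hz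
      refine Subgroup.mem_inf.2 ⟨?_, hzK⟩
      rw [Subgroup.mem_iInf]
      intro u
      refine mem_inf_cj.2 ⟨hzK, ?_⟩
      have h7 := hz (u.out)⁻¹
      rwa [inv_inv] at h7
  refine h6.of_relIndex le_top ?_
  rw [Subgroup.relIndex_top_right]
  exact hKf.index_ne_zero

theorem vn_of_sg {G : Type u} {Ω : Type v} [Group G] [MulAction G Ω] [FaithfulSMul G Ω]
    (hmax : ∀ H : Subgroup G, H.FG) {d : ℕ} (h : SG G Ω d) : VN (⊤ : Subgroup G) ⊥ := by
  classical
  by_contra hcon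
  obtain ⟨F, hne, horb, hinv⟩ := foelner hmax h
  have hcount := countable_subgroups hmax
  have hne' : Nonempty {N : Subgroup G // N.Normal ∧ VN ⊤ N} := by
    refine ⟨⟨⊤, inferInstance, VN.of_index le_rfl ?_⟩⟩
    rw [Subgroup.relIndex_self]
    exact one_ne_zero
  obtain ⟨e, he⟩ := exists_surjective_nat {N : Subgroup G // N.Normal ∧ VN ⊤ N}
  let M : ℕ → Subgroup G := fun k => ⨅ i : Fin (k + 1), (e i).1
  have hMn : ∀ k, (M k).Normal := fun k => Subgroup.normal_iInf_normal fun i => (e i).2.1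
  have hMva : ∀ k, VN ⊤ (M k) := fun k => VN.iInf fun i => (e i).2.2
  have h1 : ∀ k, ∃ x : Ω, ¬ M k ≤ MulAction.stabilizer G x := by
    intro k
    by_contra hc
    push Not at hc
    have hM : M k = ⊥ := by
      rw [eq_bot_iff]
      intro g hg
      refine Subgroup.mem_bot.2 ?_
      refine FaithfulSMul.eq_of_smul_eq_smul (α := Ω) fun x => ?_
      rw [one_smul]
      exact hc x hg
    exact hcon (hM ▸ hMva k)
  choose x hx using h1
  have h2 : ∀ k, ∀ y ∈ F k (x k), ¬ M k ≤ MulAction.stabilizer G y := by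
    intro k y hy hM
    obtain ⟨g, rfl⟩ := horb k (x k) y hy
    refine hx k fun m hm => ?_
    have h3 := hM ((hMn k).conj_mem m hm g)
    rw [MulAction.mem_stabilizer_iff] at h3 ⊢
    change (g * m * g⁻¹) • g • x k = g • x k at h3
    rw [mul_smul, mul_smul, inv_smul_smul] at h3
    exact smul_left_cancel g h3
  let F' : ℕ → Finset Ω := fun k => F k (x k)
  have hne2 : ∀ k, (F' k).Nonempty := fun k => hne k (x k)
  have hinv2 : AInv G F' := by
    intro g m
    obtain ⟨i₀, hi₀⟩ := hinv g m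
    exact ev_of_ge ⟨i₀, fun k hk => hi₀ k hk (x k)⟩
  obtain ⟨H, hH, hH'⟩ := exists_max_pos hmax F'
  have hT : CG H d := cg_of_pos hne2 hH hH' h
  have hcore := vn_core hmax H (normalizer_finiteIndex hne2 hinv2 hH hH') hT
  obtain ⟨i, hi⟩ := he ⟨H.normalCore, inferInstance, hcore⟩
  obtain ⟨D, hD⟩ := hH
  obtain ⟨k, hk1, hk2⟩ := (hD.and (ev_of_ge (p := fun k => i ≤ k) ⟨i, fun k hk => hk⟩)).exists
  have h3 : (fixd F' H k).Nonempty := by
    rw [← Finset.card_pos]
    have h4 := Finset.card_pos.2 (hne2 k)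
    by_contra h5
    rw [not_lt, Nat.le_zero] at h5
    rw [h5, mul_zero] at hk1
    omega
  obtain ⟨y, hy⟩ := h3
  rw [mem_fixd] at hy
  refine h2 k y hy.1 ?_
  have h6 : M k ≤ (e i).1 := iInf_le (fun i : Fin (k + 1) => (e i).1) ⟨i, Nat.lt_succ_of_le hk2⟩
  rw [hi] at h6
  exact h6.trans ((Subgroup.normalCore_le H).trans hy.2)

theorem mainGN (G : Type u) [Group G] (Ω : Type v) [MulAction G Ω] [FaithfulSMul G Ω] (S : Finset G)
    (hS : Subgroup.closure (S : Set G) = ⊤) (C d : ℕ)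
    (hgrowth : ∀ r₀ : ℕ, ∃ r ≥ r₀, ∀ x : Ω, (sball S r x).ncard ≤ C * r ^ d)
    (hmax : ∀ H : Subgroup G, H.FG) : Group.IsVirtuallyNilpotent G ∧ AlmostPolycyclic G := by
  have h := vnil_of_vn (vn_of_sg hmax (sg_of_gen S hS C d hgrowth))
  exact ⟨h, ap_of_vnil hmax h⟩

end H85.TN
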