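import Pool.Agent.H85.TN.Isd

/-!
# [H85 TN SLO] from the real exponent to the integral one, 50-80 lines

Let `S` be finite. If `S` is empty take `d = 2` (the sum is `0`, `#T_n ≥ 1` by `card_pos`). Otherwise let `ε > 0` be the minimum of the `ε_s`, `s ∈ S` (and of `1`; choose `ε_s` by
`hact`) and `d ≥ 2` an integer with `d ε ≥ 1`. With `N = #T_{k j} ≥ 1`: `#_s / N^(1-ε) ≤ #_s / N^(1-ε_s)` because `N ≥ 1` and `ε ≤ ε_s`, so `x_j = (∑ s ∈ S, #_s) / N^(1-ε) → 0`, and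
`(∑ s ∈ S, #_s) ^ d / N^(d-1) = x_j ^ d * N^(d (1-ε) - (d-1)) = x_j ^ d * N^(1 - d ε) ≤ x_j ^ d → 0` (`Real.rpow_add`, `Real.rpow_mul`, `Real.rpow_le_one_of...`). So it is eventually
smaller than `1 / (c + 1)`; choose such a `j ≥ n₀`; `k j ≥ j ≥ n₀` (`StrictMono.id_le`/`le_apply`). Cast to `ℕ`. (Compare the proof of `mainT` in `Pool/Agent/H85/TA/Main.lean`.)
-/

set_option autoImplicit false

universe u v

namespace H85.TN

open H85.TA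

theorem slowN_of_tendsto {X : Type u} (G : Subgroup (TreeAut X)) (η : ℕ → X)
    (hfin : ∀ n, (T G η n).Finite) (k : ℕ → ℕ) (hk : StrictMono k)
    (hact : ∀ g ∈ G, ∃ ε : ℝ, 0 < ε ∧ Filter.Tendsto
      (fun j => (Set.ncard {w | w ∈ T G η (k j) ∧ sec g w ≠ 1} : ℝ) /
        ((T G η (k j)).ncard : ℝ) ^ (1 - ε)) Filter.atTop (nhds 0)) : SlowN G η := by
  classical
  intro S hS
  choose! ε hε hlim using hact
  -- a common exponent
  obtain ⟨ε₀, hε₀, hmin⟩ : ∃ ε₀ : ℝ, 0 < ε₀ ∧ ∀ s ∈ S, ε₀ ≤ ε s := by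
    rcases S.eq_empty_or_nonempty with rfl | hne
    · exact ⟨1, one_pos, fun s hs => absurd hs (Finset.notMem_empty s)⟩
    · obtain ⟨s₀, hs₀, hs₀'⟩ := S.exists_min_image ε hne
      exact ⟨ε s₀, hε s₀ (hS s₀ hs₀), hs₀'⟩
  obtain ⟨d₀, hd₀⟩ := exists_nat_gt (1 / ε₀)
  have hN : ∀ j, (1 : ℝ) ≤ ((T G η (k j)).ncard : ℝ) := by
    intro j
    have := card_pos (hfin (k j))
    exact_mod_cast this
  have h1 : Filter.Tendsto (fun j => ∑ s ∈ S, (Set.ncard {w | w ∈ T G η (k j) ∧ sec s w ≠ 1} : ℝ) /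
        ((T G η (k j)).ncard : ℝ) ^ (1 - ε₀)) Filter.atTop (nhds 0) := by
    have h2 : Filter.Tendsto (fun j => ∑ s ∈ S,
        (Set.ncard {w | w ∈ T G η (k j) ∧ sec s w ≠ 1} : ℝ) /
        ((T G η (k j)).ncard : ℝ) ^ (1 - ε s)) Filter.atTop (nhds (∑ s ∈ S, (0 : ℝ))) :=
      tendsto_finsetSum _ fun s hs => hlim s (hS s hs)
    rw [Finset.sum_const_zero] at h2
    refine squeeze_zero (fun j => Finset.sum_nonneg fun s _ => by positivity) (fun j => ?_) h2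
    refine Finset.sum_le_sum fun s hs => ?_
    have hpos : (0 : ℝ) < ((T G η (k j)).ncard : ℝ) := lt_of_lt_of_le one_pos (hN j)
    refine div_le_div_of_nonneg_left (by positivity) (Real.rpow_pos_of_pos hpos _) ?_
    exact Real.rpow_le_rpow_of_exponent_le (hN j) (by linarith [hmin s hs])
  refine ⟨d₀ + 2, by omega, fun c n₀ => ?_⟩
  have hd : (1 : ℝ) ≤ ((d₀ + 2 : ℕ) : ℝ) * ε₀ := by
    rw [div_lt_iff₀ hε₀] at hd₀
    push_cast
    nlinarith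
  have h3 : Filter.Tendsto (fun j => (c : ℝ) * (∑ s ∈ S,
      (Set.ncard {w | w ∈ T G η (k j) ∧ sec s w ≠ 1} : ℝ) /
        ((T G η (k j)).ncard : ℝ) ^ (1 - ε₀)) ^ (d₀ + 2)) Filter.atTop (nhds 0) := by
    have h4 := (h1.pow (d₀ + 2)).const_mul (c : ℝ)
    rwa [zero_pow (by omega), mul_zero] at h4
  obtain ⟨j, hj, hjn⟩ := ((h3.eventually (gt_mem_nhds one_pos)).and
    (Filter.eventually_ge_atTop n₀)).exists
  refine ⟨k j, hjn.trans (hk.id_le j), ?_⟩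
  have hNj := hN j
  obtain ⟨N, hNd⟩ : ∃ N : ℝ, N = ((T G η (k j)).ncard : ℝ) := ⟨_, rfl⟩
  obtain ⟨b, hbd⟩ : ∃ b : ℝ, b = ∑ s ∈ S, (Set.ncard {w | w ∈ T G η (k j) ∧ sec s w ≠ 1} : ℝ) :=
    ⟨_, rfl⟩
  rw [← Finset.sum_div, ← hNd, ← hbd] at hj
  rw [← hNd] at hNj
  have hN0 : 0 < N := lt_of_lt_of_le one_pos hNj
  have h4 : (c : ℝ) * b ^ (d₀ + 2) < N ^ (d₀ + 1) := by
    have h5 : (N ^ (1 - ε₀)) ^ (d₀ + 2) ≤ N ^ (d₀ + 1) := by
      rw [← Real.rpow_natCast, ← Real.rpow_mul hN0.le, ← Real.rpow_natCast]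
      refine Real.rpow_le_rpow_of_exponent_le hNj ?_
      push_cast at hd ⊢
      linarith
    have h6 : 0 < (N ^ (1 - ε₀)) ^ (d₀ + 2) := pow_pos (Real.rpow_pos_of_pos hN0 _) _
    rw [div_pow, ← mul_div_assoc, div_lt_one h6] at hj
    exact lt_of_lt_of_le hj h5
  rw [hbd, hNd] at h4
  have h5 : d₀ + 2 - 1 = d₀ + 1 := by omega
  rw [h5]
  exact_mod_cast h4

end H85.TN
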