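import Pool.Agent.H85.TN.Crn
import Pool.Agent.H85.TN.Slo
import Pool.Agent.H85.TN.Sgn

/-!
# The main theorems with nilpotent conclusion
-/

set_option autoImplicit false

universe u v

namespace H85.TN

open H85.TA H85.TG

theorem mainLN (X : Type u) (G : Subgroup (TreeAut X)) (η : ℕ → X)
    (hfin : ∀ n, (T G η n).Finite)
    (hfaith : ∀ g ∈ G, (∀ n, ∀ w ∈ T G η n, g • w = w) → g = 1)
    (k : ℕ → ℕ) (hk : StrictMono k)
    (hact : ∀ g ∈ G, ∃ ε : ℝ, 0 < ε ∧ Filter.Tendsto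
      (fun j => (Set.ncard {w | w ∈ T G η (k j) ∧ sec g w ≠ 1} : ℝ) /
        ((T G η (k j)).ncard : ℝ) ^ (1 - ε)) Filter.atTop (nhds 0))
    (hmax : ∀ H : Subgroup G, H.FG) : Group.IsVirtuallyNilpotent G ∧ AlmostPolycyclic G := by
  have h1 := coreN (max_of_fg hmax) hfin (slowN_of_tendsto G η hfin k hk hact)
  have h2 : OF G η ≤ ⊥ := fun g hg => Subgroup.mem_bot.2 (hfaith g hg.1 hg.2)
  have h3 := (h1.mono_right h2).comap G.subtype
  have e1 : G.comap G.subtype = ⊤ := by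
    rw [eq_top_iff]
    exact fun x _ => x.2
  have e2 : (⊥ : Subgroup (TreeAut X)).comap G.subtype = ⊥ := by
    rw [MonoidHom.comap_bot]
    exact (MonoidHom.ker_eq_bot_iff _).2 G.subtype_injective
  rw [e1, e2] at h3
  have h4 := vnil_of_vn h3
  exact ⟨h4, ap_of_vnil hmax h4⟩

theorem mainCN (X : Type*) [Finite X] (G : Subgroup (TreeAut X)) (hG : Contracting G)
    (H : Subgroup (TreeAut X)) (hH : H ≤ G) (hmax : ∀ K : Subgroup H, K.FG) :
    Group.IsVirtuallyNilpotent H ∧ AlmostPolycyclic H := by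
  obtain ⟨S, hS⟩ := hmax ⊤
  obtain ⟨C, d, h⟩ := ball_bound hG H hH S
  exact mainGN H (List X) S hS C d h hmax

end H85.TN
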