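import Pool.Agent.H85.TN.Sec

/-!
# [H85 TN NIL] a power of t acts nilpotently on a nilpotent normal subgroup
-/

set_option autoImplicit false

universe u v

namespace H85.TN

open H85.TA H85.TG

section

variable {Q : Type u} [Group Q]

private theorem conj_iff {L : Subgroup Q} (hL : L.Normal) (g x : Q) : g * x * g⁻¹ ∈ L ↔ x ∈ L := by
  constructor
  · intro h
    have h1 := hL.conj_mem _ h g⁻¹
    have h2 : g⁻¹ * (g * x * g⁻¹) * g⁻¹⁻¹ = x := by group
    rw [h2] at h1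
    exact h1
  · intro h
    exact hL.conj_mem _ h g

private theorem ZS_inf {C D L : Subgroup Q} (hL : L.Normal) {g : Q} (hg : g ∈ ZS C D) :
    g ∈ ZS (C ⊓ L) (D ⊓ L) := by
  obtain ⟨h1, h2, h3⟩ := hg
  refine ⟨fun x => ?_, fun x => ?_, fun x hx => ⟨h3 x hx.1, ?_⟩⟩
  · rw [Subgroup.mem_inf, Subgroup.mem_inf, h1, conj_iff hL]
  · rw [Subgroup.mem_inf, Subgroup.mem_inf, h2, conj_iff hL]
  · have h4 : x * g * x⁻¹ * g⁻¹ = x * (g * x⁻¹ * g⁻¹) := by group
    rw [h4]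
    exact L.mul_mem hx.2 (hL.conj_mem _ (L.inv_mem hx.2) g)

private theorem conj_N {D L B N : Subgroup Q} (hL : L.Normal)
    (hB : ∀ x ∈ L, ∀ g ∈ N, x * g * x⁻¹ * g⁻¹ ∈ B) (hD : B ≤ D) (hDL : D ≤ L) {g : Q}
    (hg : g ∈ N) (x : Q) : g * x * g⁻¹ ∈ D ↔ x ∈ D := by
  by_cases hx : x ∈ L
  · have h1 : (x * g * x⁻¹ * g⁻¹)⁻¹ ∈ D := D.inv_mem (hD (hB x hx g hg))
    have h2 : g * x * g⁻¹ = (x * g * x⁻¹ * g⁻¹)⁻¹ * x := by group
    rw [h2]
    exact D.mul_mem_cancel_left h1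
  · constructor
    · intro h1
      exact absurd ((conj_iff hL g x).1 (hDL h1)) hx
    · intro h1
      exact absurd (hDL h1) hx

private theorem ZS_of_N {D D' L B N : Subgroup Q} (hL : L.Normal)
    (hB : ∀ x ∈ L, ∀ g ∈ N, x * g * x⁻¹ * g⁻¹ ∈ B) (hD : B ≤ D) (hDL : D ≤ L) (hD' : B ≤ D')
    (hDL' : D' ≤ L) : N ≤ ZS D D' := fun g hg =>
  ⟨conj_N hL hB hD hDL hg, conj_N hL hB hD' hDL' hg, fun x hx => hD' (hB x (hDL hx) g hg)⟩

private def R (N : Subgroup Q) (t : Q) (k : ℕ) (C D : Subgroup Q) : Prop :=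
  N ≤ ZS C D ∧ t ^ k ∈ ZS C D

private theorem R_mul {N : Subgroup Q} {t : Q} {k : ℕ} (l : ℕ) {C D : Subgroup Q}
    (h : R N t k C D) : R N t (k * l) C D :=
  ⟨h.1, by rw [pow_mul]; exact (ZS C D).pow_mem h.2 l⟩

private theorem chain {d : ℕ} (h : PG Q d) (hmax : ∀ H : Subgroup Q, H.FG) (N : Subgroup Q)
    [hN : N.Normal] (t : Q) (i : ℕ) :
    ∃ k : ℕ, 0 < k ∧ Relation.ReflTransGen (R N t k) N (N.lowerCentralSeries i) := by
  induction i with
  | zero => exact ⟨1, Nat.one_pos, Relation.ReflTransGen.refl⟩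
  | succ i ih =>
    obtain ⟨k, hk, hch⟩ := ih
    have hLi : (N.lowerCentralSeries i).Normal := inferInstance
    have hB : ∀ x ∈ N.lowerCentralSeries i, ∀ g ∈ N,
        x * g * x⁻¹ * g⁻¹ ∈ N.lowerCentralSeries (i + 1) := fun x hx g hg =>
      Subgroup.commutator_mem_commutator hx hg
    have hanti : N.lowerCentralSeries (i + 1) ≤ N.lowerCentralSeries i :=
      N.lowerCentralSeries_antitone (Nat.le_succ i)
    obtain ⟨k', hk', m, C, h0, hm, hBC, hC⟩ := sec_chain h (N.lowerCentralSeries i)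
      (N.lowerCentralSeries (i + 1)) hLi inferInstance hanti
      (fun x hx y hy => hB x hx y (N.lowerCentralSeries_le_self i hy)) (hmax _) t
    refine ⟨k * k', Nat.mul_pos hk hk', Relation.ReflTransGen.trans
      (hch.lift id fun _ _ hr => R_mul k' hr) ?_⟩
    have h1 : ∀ j : ℕ, Relation.ReflTransGen (R N t (k * k')) (C 0 ⊓ N.lowerCentralSeries i)
        (C j ⊓ N.lowerCentralSeries i) := by
      intro j
      induction j with
      | zero => exact Relation.ReflTransGen.refl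
      | succ j ih2 =>
        refine ih2.tail ?_
        rw [mul_comm]
        refine R_mul k ⟨?_, ZS_inf hLi (hC j)⟩
        exact ZS_of_N hLi hB (le_inf (hBC j) hanti) inf_le_right (le_inf (hBC (j + 1)) hanti)
          inf_le_right
    have h2 := h1 m
    rw [h0, hm, inf_idem, inf_eq_left.2 hanti] at h2
    exact h2

private theorem comm_le (N : Subgroup Q) [hN : N.Normal] (s : Q) :
    ⁅N ⊔ Subgroup.zpowers s, N ⊔ Subgroup.zpowers s⁆ ≤ N := by
  have h1 : N ⊔ Subgroup.zpowers s ≤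
      (Subgroup.zpowers (QuotientGroup.mk' N s)).comap (QuotientGroup.mk' N) := by
    refine sup_le ?_ ?_
    · intro x hx
      have h2 : QuotientGroup.mk' N x = 1 := (QuotientGroup.eq_one_iff x).2 hx
      rw [Subgroup.mem_comap, h2]
      exact Subgroup.one_mem _
    · rw [Subgroup.zpowers_le, Subgroup.mem_comap]
      exact Subgroup.mem_zpowers _
  rw [Subgroup.commutator_le]
  intro a ha b hb
  obtain ⟨i, hi⟩ := Subgroup.mem_zpowers_iff.1 (h1 ha)
  obtain ⟨j, hj⟩ := Subgroup.mem_zpowers_iff.1 (h1 hb)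
  rw [← QuotientGroup.eq_one_iff]
  have h2 : QuotientGroup.mk' N (a * b * a⁻¹ * b⁻¹) = 1 := by
    have h3 := ((Commute.refl (QuotientGroup.mk' N s)).zpow_zpow i j).eq
    rw [hi, hj] at h3
    rw [map_mul, map_mul, map_mul, map_inv, map_inv, h3]
    group
  exact h2

theorem nil_power {Q : Type u} [Group Q] {d : ℕ} (h : PG Q d) (hmax : ∀ H : Subgroup Q, H.FG)
    (N : Subgroup Q) [N.Normal] (c : ℕ) (hc : N.lowerCentralSeries c = ⊥) (t : Q) :
    ∃ k : ℕ, 0 < k ∧ ∃ m : ℕ, (N ⊔ Subgroup.zpowers (t ^ k)).lowerCentralSeries m = ⊥ := by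
  obtain ⟨k, hk, hch⟩ := chain h hmax N t c
  rw [hc] at hch
  refine ⟨k, hk, ?_⟩
  have h1 : ∀ C : Subgroup Q, Relation.ReflTransGen (R N t k) N C →
      ∃ m : ℕ, (N ⊔ Subgroup.zpowers (t ^ k)).lowerCentralSeries m ≤ C := by
    intro C hC
    induction hC with
    | refl => exact ⟨1, comm_le N (t ^ k)⟩
    | @tail C D _ hCD ih =>
      obtain ⟨m, hm⟩ := ih
      refine ⟨m + 1, ?_⟩
      have h2 : N ⊔ Subgroup.zpowers (t ^ k) ≤ ZS C D :=
        sup_le hCD.1 (Subgroup.zpowers_le.2 hCD.2)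
      rw [Subgroup.lowerCentralSeries_succ, Subgroup.commutator_le]
      intro a ha b hb
      exact (h2 hb).2.2 a (hm ha)
  obtain ⟨m, hm⟩ := h1 ⊥ hch
  exact ⟨m, le_bot_iff.1 hm⟩

end

end H85.TN
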