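import Pool.Agent.H85.TG.Ba

/-!
# [H85 TN PGS] sets with small boundary give polynomial growth, 50-80 lines

`H85.TA.averaging` (`Pool/Agent/H85/TA/Gr1.lean`): if `2 |A| ≤ |(ball S)^r|` then `|A| ≤ 2 r ∂A` (`∂A = bd S A`). By `pg_of_gen` (`TG/Ba.lean`) with `T = S` it is enough to find `C` such
that `(bp S r).card ≤ C * r ^ d` for arbitrarily large `r`.
* If some `A` (nonempty) has `bd S A = 0`: `move_card` gives `g • A ⊆ A` for every `g ∈ (ball S)^r`, every `g : Q` is in some ball (`exists_mem_pow`, `hS`), so with `a₀ ∈ A` the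
  map `g ↦ g * a₀` is an injection of `Q` into `A`; `(bp S r).card ≤ A.card ≤ A.card * r ^ d` for `r ≥ 1`.
* Otherwise take `C = 2 * 4 ^ d`; given `r₀` let `c = (2 * (r₀ + 1)) ^ d + 1`, `A` from `h c`, `b = bd S A ≥ 1`, `r = (A.card - 1) / (2 * b)`: `2 * r * b < A.card ≤ 2 * b * (r + 1)`.
  From `c * b ^ d < A.card ^ (d - 1)`, times `A.card`: `c * b ^ d * A.card < A.card ^ d ≤ (2 * b * (r + 1)) ^ d`, so `c * A.card < (2 * (r + 1)) ^ d`. Hence `c < (2 * (r + 1)) ^ d`
  and `r > r₀`; and `A.card < (2 * (r + 1)) ^ d ≤ (4 * r) ^ d` (`r ≥ 1`). `averaging` (contrapositive): `(bp S r).card < 2 * A.card ≤ C * r ^ d`.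
-/

set_option autoImplicit false

universe u v

namespace H85.TN

open H85.TA H85.TG
open scoped Pointwise

private theorem bp_eq {Q : Type u} [Group Q] [h : DecidableEq Q] (S : Finset Q) (r : ℕ) :
    (bp S r).card = ((ball S) ^ r).card := by
  have h1 : (fun a b : Q => Classical.propDecidable (a = b)) = h := Subsingleton.elim _ _
  unfold bp
  rw [h1]

theorem pg_of_sets {Q : Type u} [Group Q] [DecidableEq Q] (S : Finset Q)
    (hS : Subgroup.closure (S : Set Q) = ⊤) (d : ℕ) (hd : 1 ≤ d)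
    (h : ∀ c : ℕ, ∃ A : Finset Q, A.Nonempty ∧ c * (bd S A) ^ d < A.card ^ (d - 1)) : PG Q d := by
  by_cases hz : ∃ A : Finset Q, A.Nonempty ∧ bd S A = 0
  · obtain ⟨A, ⟨a₀, ha₀⟩, hA⟩ := hz
    have h1 : ∀ g : Q, g * a₀ ∈ A := by
      intro g
      obtain ⟨r, hr⟩ := exists_mem_pow S (q := g) (by rw [hS]; trivial)
      have h2 := move_card S A r hr
      rw [hA, mul_zero, Nat.le_zero, Finset.card_eq_zero] at h2
      by_contra hcon
      have h3 : a₀ ∈ A.filter fun a => g * a ∉ A := Finset.mem_filter.2 ⟨ha₀, hcon⟩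
      rw [h2] at h3
      exact absurd h3 (Finset.notMem_empty _)
    refine pg_of_gen S hS A.card d fun r₀ => ⟨r₀ + 1, Nat.le_succ _, ?_⟩
    have h2 : (bp S (r₀ + 1)).card ≤ A.card :=
      Finset.card_le_card_of_injOn (fun g => g * a₀) (fun g _ => h1 g)
        fun g _ g' _ hgg => mul_right_cancel hgg
    refine h2.trans ?_
    exact Nat.le_mul_of_pos_right _ (Nat.pow_pos (Nat.succ_pos _))
  · push Not at hz
    refine pg_of_gen S hS (2 * 4 ^ d) d fun r₀ => ?_
    obtain ⟨A, hA, hlt⟩ := h ((2 * (r₀ + 1)) ^ d + 1)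
    have hb : 1 ≤ bd S A := Nat.one_le_iff_ne_zero.2 (hz A hA)
    obtain ⟨b, hbd⟩ : ∃ b, b = bd S A := ⟨_, rfl⟩
    obtain ⟨n, hn⟩ : ∃ n, n = A.card := ⟨_, rfl⟩
    rw [← hbd] at hb hlt
    have hn0 : 0 < n := by
      rw [hn]
      exact Finset.card_pos.2 hA
    rw [← hn] at hlt
    obtain ⟨r, hr⟩ : ∃ r, r = (n - 1) / (2 * b) := ⟨_, rfl⟩
    have h2b : 0 < 2 * b := by omega
    have h1 : 2 * r * b < n := by
      have h3 := Nat.div_mul_le_self (n - 1) (2 * b)
      rw [← hr] at h3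
      have h4 : 2 * r * b = r * (2 * b) := by ring
      omega
    have h2 : n ≤ 2 * (r + 1) * b := by
      have h3 := Nat.lt_div_mul_add (a := n - 1) h2b
      rw [← hr] at h3
      have h4 : 2 * (r + 1) * b = r * (2 * b) + 2 * b := by ring
      omega
    have h3 : ((2 * (r₀ + 1)) ^ d + 1) * n < (2 * (r + 1)) ^ d := by
      have h4 : ((2 * (r₀ + 1)) ^ d + 1) * b ^ d * n < n ^ (d - 1) * n :=
        Nat.mul_lt_mul_of_pos_right hlt hn0
      have h5 : n ^ (d - 1) * n = n ^ d := by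
        rw [← pow_succ]
        congr 1
        omega
      rw [h5] at h4
      have h6 : n ^ d ≤ (2 * (r + 1)) ^ d * b ^ d := by
        rw [← mul_pow]
        exact Nat.pow_le_pow_left h2 d
      have h7 : ((2 * (r₀ + 1)) ^ d + 1) * n * b ^ d < (2 * (r + 1)) ^ d * b ^ d := by
        have h8 : ((2 * (r₀ + 1)) ^ d + 1) * n * b ^ d = ((2 * (r₀ + 1)) ^ d + 1) * b ^ d * n := by
          ring
        rw [h8]
        exact lt_of_lt_of_le h4 h6
      exact lt_of_mul_lt_mul_right h7 (Nat.zero_le _)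
    have h4 : r₀ < r := by
      by_contra hcon
      push Not at hcon
      have h5 : (2 * (r + 1)) ^ d ≤ (2 * (r₀ + 1)) ^ d := Nat.pow_le_pow_left (by omega) d
      have h6 : ((2 * (r₀ + 1)) ^ d + 1) * 1 ≤ ((2 * (r₀ + 1)) ^ d + 1) * n :=
        Nat.mul_le_mul_left _ hn0
      omega
    refine ⟨r, h4.le, ?_⟩
    have h5 : (bp S r).card < 2 * n := by
      by_contra hcon
      push Not at hcon
      rw [bp_eq, hn] at hcon
      have h6 := averaging S A r hcon
      rw [← hn, ← hbd] at h6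
      omega
    have h6 : n ≤ 4 ^ d * r ^ d := by
      have h7 : n ≤ ((2 * (r₀ + 1)) ^ d + 1) * n := Nat.le_mul_of_pos_left _ (Nat.succ_pos _)
      have h8 : (2 * (r + 1)) ^ d ≤ 4 ^ d * r ^ d := by
        rw [← mul_pow]
        exact Nat.pow_le_pow_left (by omega) d
      exact (h7.trans h3.le).trans h8
    calc (bp S r).card ≤ 2 * n := h5.le
      _ ≤ 2 * (4 ^ d * r ^ d) := Nat.mul_le_mul_left _ h6
      _ = 2 * 4 ^ d * r ^ d := by ring

end H85.TN
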