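import Mathlib

/-!
# [H85 TN PWS] concavity, 30-50 lines

`a_i ^ (d-1) ≤ c * b_i ^ d` for all `i ∈ s` implies the same for the sums. Let `θ = (d-1)/d ∈ [0, 1)` (real). Taking `d`-th roots, `a_i ^ θ ≤ c ^ (1/d) * b_i` (`Real.rpow`), so
`∑ a_i ^ θ ≤ c ^ (1/d) * ∑ b_i`, and `(∑ a_i) ^ θ ≤ ∑ a_i ^ θ` because `x ↦ x ^ θ` is subadditive on the nonnegative reals (`Real.rpow_add_le_rpow_add...`,
`NNReal.rpow_add_le_add_rpow`, or: with `A = ∑ a_i > 0`, `a_i / A ≤ (a_i / A) ^ θ` as `a_i / A ≤ 1`, sum over `i`). Take the `d`-th power. (Induction over `s` is possible as well,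
with the case of two terms.)
-/

set_option autoImplicit false

namespace H85.TN

private theorem rpow_sum_le_sum {ι : Type*} (s : Finset ι) (a : ι → NNReal) (p : ℝ) (hp : 0 < p)
    (hp1 : p ≤ 1) : (∑ i ∈ s, a i) ^ p ≤ ∑ i ∈ s, a i ^ p := by
  classical
  induction s using Finset.induction_on with
  | empty =>
    rw [Finset.sum_empty, Finset.sum_empty, NNReal.zero_rpow hp.ne']
  | insert x s hx ih =>
    rw [Finset.sum_insert hx, Finset.sum_insert hx]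
    exact (NNReal.rpow_add_le_add_rpow _ _ hp.le hp1).trans (add_le_add le_rfl ih)

theorem pow_sum_le {ι : Type*} (s : Finset ι) (a b : ι → ℕ) (c d : ℕ) (hd : 2 ≤ d)
    (h : ∀ i ∈ s, a i ^ (d - 1) ≤ c * b i ^ d) :
    (∑ i ∈ s, a i) ^ (d - 1) ≤ c * (∑ i ∈ s, b i) ^ d := by
  have hd0 : (0 : ℝ) < d := by
    have : 0 < d := by omega
    exact_mod_cast this
  have hd1 : (0 : ℝ) < ((d - 1 : ℕ) : ℝ) := by
    have : 0 < d - 1 := by omega
    exact_mod_cast this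
  have hle : ((d - 1 : ℕ) : ℝ) / d ≤ 1 := by
    rw [div_le_one hd0]
    exact_mod_cast Nat.sub_le d 1
  have hkey : ∀ i ∈ s, ((a i : NNReal)) ^ (((d - 1 : ℕ) : ℝ) / d) ≤
      (c : NNReal) ^ ((d : ℝ)⁻¹) * (b i : NNReal) := by
    intro i hi
    have h1 : ((a i : NNReal)) ^ (d - 1) ≤ (c : NNReal) * (b i : NNReal) ^ d := by
      exact_mod_cast h i hi
    have h2 := NNReal.rpow_le_rpow h1 (inv_nonneg.2 hd0.le)
    rw [NNReal.mul_rpow, ← NNReal.rpow_natCast, ← NNReal.rpow_natCast, ← NNReal.rpow_mul,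
      ← NNReal.rpow_mul, mul_inv_cancel₀ hd0.ne', NNReal.rpow_one] at h2
    rw [div_eq_mul_inv]
    exact h2
  have h1 : (∑ i ∈ s, (a i : NNReal)) ^ (((d - 1 : ℕ) : ℝ) / d) ≤
      (c : NNReal) ^ ((d : ℝ)⁻¹) * ∑ i ∈ s, (b i : NNReal) := by
    refine (rpow_sum_le_sum s _ _ (div_pos hd1 hd0) hle).trans ?_
    rw [Finset.mul_sum]
    exact Finset.sum_le_sum hkey
  have h2 := NNReal.rpow_le_rpow h1 hd0.le
  rw [NNReal.mul_rpow, ← NNReal.rpow_mul, ← NNReal.rpow_mul, div_mul_cancel₀ _ hd0.ne',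
    inv_mul_cancel₀ hd0.ne', NNReal.rpow_one, NNReal.rpow_natCast, NNReal.rpow_natCast] at h2
  exact_mod_cast h2

end H85.TN
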