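import Pool.Agent.H85.TN.Lnb
import Pool.Agent.H85.TN.Dst
import Pool.Agent.H85.TN.Defs

/-!
# [H85 TN SAB] a normal abelian subgroup of a group of polynomial growth
-/

set_option autoImplicit false

universe u v

namespace H85.TN

open H85.TA H85.TG

private theorem core {Q : Type u} [Group Q] {d : ℕ} (h : PG Q d) {M : Type v} [AddCommGroup M]
    [Module.Finite ℤ M] (val : Multiplicative M →* Q) (hval : Function.Injective val) (t : Q)
    (f : Module.End ℤ M)
    (hf : ∀ x : M, val (Multiplicative.ofAdd (f x)) = t * val (Multiplicative.ofAdd x) * t⁻¹)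
    (hsurj : Function.Surjective f) :
    ∃ k : ℕ, 0 < k ∧ ∃ m : ℕ, ∃ C : ℕ → Subgroup Q, C 0 = val.range ∧ C m = ⊥ ∧
      ∀ i, t ^ k ∈ ZS (C i) (C (i + 1)) := by
  have hinj : Function.Injective f := by
    intro x y hxy
    have h1 : t * val (Multiplicative.ofAdd x) * t⁻¹ = t * val (Multiplicative.ofAdd y) * t⁻¹ := by
      rw [← hf, ← hf, hxy]
    have h2 := mul_left_cancel (mul_right_cancel h1)
    exact Multiplicative.ofAdd.injective (hval h2)
  obtain ⟨k, hk, m, hm⟩ := unipotent_int f hinj fun j v => dst h val hval t f hf j v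
  have hfk : ∀ n : ℕ, ∀ x : M, val (Multiplicative.ofAdd ((f ^ n) x)) =
      t ^ n * val (Multiplicative.ofAdd x) * (t ^ n)⁻¹ := by
    intro n
    induction n with
    | zero => intro x; simp
    | succ n ih =>
      intro x
      rw [pow_succ', Module.End.mul_apply, hf, ih, pow_succ']
      group
  have hsk : Function.Surjective (f ^ k) := by
    rw [Module.End.coe_pow]
    exact hsurj.iterate k
  obtain ⟨u, hu⟩ : ∃ u, u = f ^ k - 1 := ⟨_, rfl⟩
  rw [← hu] at hm
  have hcomm : Commute (f ^ k) u := by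
    rw [hu]
    exact (Commute.refl _).sub_right (Commute.one_right _)
  have hcomm' : ∀ i : ℕ, ∀ x : M, (f ^ k) ((u ^ i) x) = (u ^ i) ((f ^ k) x) := by
    intro i x
    rw [← Module.End.mul_apply, (hcomm.pow_right i).eq, Module.End.mul_apply]
  let C : ℕ → Subgroup Q := fun i =>
    { carrier := {q | ∃ y : M, q = val (Multiplicative.ofAdd ((u ^ i) y))}
      mul_mem' := by
        rintro _ _ ⟨y, rfl⟩ ⟨z, rfl⟩
        exact ⟨y + z, by rw [map_add, ofAdd_add, map_mul]⟩
      one_mem' := ⟨0, by rw [map_zero, ofAdd_zero, map_one]⟩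
      inv_mem' := by
        rintro _ ⟨y, rfl⟩
        exact ⟨-y, by rw [map_neg, ofAdd_neg, map_inv]⟩ }
  have hC : ∀ i : ℕ, ∀ q : Q, q ∈ C i ↔ ∃ y : M, q = val (Multiplicative.ofAdd ((u ^ i) y)) :=
    fun i q => Iff.rfl
  have hnorm : ∀ i : ℕ, ∀ x : Q, t ^ k * x * (t ^ k)⁻¹ ∈ C i ↔ x ∈ C i := by
    intro i x
    constructor
    · intro hx
      obtain ⟨y, hy⟩ := (hC i _).1 hx
      obtain ⟨y', rfl⟩ := hsk y
      rw [← hcomm', hfk] at hy
      exact (hC i _).2 ⟨y', mul_left_cancel (mul_right_cancel hy)⟩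
    · intro hx
      obtain ⟨y, rfl⟩ := (hC i _).1 hx
      exact (hC i _).2 ⟨(f ^ k) y, by rw [← hcomm', hfk]⟩
  refine ⟨k, hk, m, C, ?_, ?_, fun i => ⟨hnorm i, hnorm (i + 1), ?_⟩⟩
  · ext q
    rw [hC, MonoidHom.mem_range]
    constructor
    · rintro ⟨y, rfl⟩
      exact ⟨_, rfl⟩
    · rintro ⟨y, rfl⟩
      exact ⟨Multiplicative.toAdd y, by simp⟩
  · rw [eq_bot_iff]
    intro q hq
    obtain ⟨y, rfl⟩ := (hC m _).1 hq
    rw [hm]
    simp
  · intro x hx
    obtain ⟨y, rfl⟩ := (hC i _).1 hx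
    refine (hC (i + 1) _).2 ⟨-y, ?_⟩
    have h1 : (u ^ (i + 1)) (-y) = (u ^ i) y + (f ^ k) (-(u ^ i) y) := by
      have h2 : (u ^ (i + 1)) y = (f ^ k) ((u ^ i) y) - (u ^ i) y := by
        have h3 : ∀ z : M, u z = (f ^ k) z - z := fun z => by
          rw [hu, LinearMap.sub_apply, Module.End.one_apply]
        rw [pow_succ', Module.End.mul_apply, h3]
      rw [map_neg, h2, map_neg]
      abel
    rw [h1, ofAdd_add, map_mul, hfk, ofAdd_neg, map_inv]
    group

theorem sec_ab {Q : Type u} [Group Q] {d : ℕ} (h : PG Q d) (A : Subgroup Q) (hA : A.Normal)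
    (hc : ∀ x ∈ A, ∀ y ∈ A, x * y = y * x) (hfg : A.FG) (t : Q) :
    ∃ k : ℕ, 0 < k ∧ ∃ m : ℕ, ∃ C : ℕ → Subgroup Q, C 0 = A ∧ C m = ⊥ ∧
      ∀ i, t ^ k ∈ ZS (C i) (C (i + 1)) := by
  letI : CommGroup A := { (inferInstance : Group A) with
    mul_comm := fun a b => Subtype.ext (hc a a.2 b b.2) }
  haveI : Module.Finite ℤ (Additive A) := by
    rw [Module.Finite.iff_addGroup_fg, ← GroupFG.iff_add_fg, Group.fg_iff_subgroup_fg]
    exact hfg
  let val : Multiplicative (Additive A) →* Q :=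
    { toFun := fun x => ((Additive.toMul (Multiplicative.toAdd x) : A) : Q)
      map_one' := rfl
      map_mul' := fun _ _ => rfl }
  have hval : Function.Injective val := by
    intro x y hxy
    exact Multiplicative.toAdd.injective (Additive.toMul.injective (Subtype.ext hxy))
  let f : Additive A →+ Additive A :=
    { toFun := fun x => Additive.ofMul ⟨t * ((Additive.toMul x : A) : Q) * t⁻¹,
        hA.conj_mem _ (Additive.toMul x).2 t⟩
      map_zero' := by
        apply Additive.toMul.injective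
        apply Subtype.ext
        change t * 1 * t⁻¹ = 1
        group
      map_add' := by
        intro x y
        apply Additive.toMul.injective
        apply Subtype.ext
        change t * (((Additive.toMul x : A) : Q) * ((Additive.toMul y : A) : Q)) * t⁻¹ =
          (t * ((Additive.toMul x : A) : Q) * t⁻¹) * (t * ((Additive.toMul y : A) : Q) * t⁻¹)
        group }
  obtain ⟨k, hk, m, C, h0, hm, hC⟩ := core h val hval t f.toIntLinearMap (fun x => rfl) (by
    intro y
    refine ⟨Additive.ofMul ⟨t⁻¹ * ((Additive.toMul y : A) : Q) * t⁻¹⁻¹,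
      hA.conj_mem _ (Additive.toMul y).2 t⁻¹⟩, ?_⟩
    apply Additive.toMul.injective
    apply Subtype.ext
    change t * (t⁻¹ * ((Additive.toMul y : A) : Q) * t⁻¹⁻¹) * t⁻¹ = ((Additive.toMul y : A) : Q)
    group)
  refine ⟨k, hk, m, C, ?_, hm, hC⟩
  rw [h0]
  ext q
  rw [MonoidHom.mem_range]
  constructor
  · rintro ⟨y, rfl⟩
    exact (Additive.toMul (Multiplicative.toAdd y) : A).2
  · intro hq
    exact ⟨Multiplicative.ofAdd (Additive.ofMul ⟨q, hq⟩), rfl⟩

end H85.TN
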