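import Pool.Agent.H85.TN.Sab
import Pool.Agent.H85.TG.Jc

/-!
# [H85 TN SEC] abelian normal sections
-/

set_option autoImplicit false

universe u v

namespace H85.TN

open H85.TA H85.TG

theorem sec_chain {Q : Type u} [Group Q] {d : ℕ} (h : PG Q d) (A B : Subgroup Q) (hA : A.Normal)
    (hB : B.Normal) (hBA : B ≤ A) (hcomm : ∀ x ∈ A, ∀ y ∈ A, x * y * x⁻¹ * y⁻¹ ∈ B) (hfg : A.FG)
    (t : Q) : ∃ k : ℕ, 0 < k ∧ ∃ m : ℕ, ∃ C : ℕ → Subgroup Q, C 0 = A ∧ C m = B ∧ (∀ i, B ≤ C i) ∧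
      ∀ i, t ^ k ∈ ZS (C i) (C (i + 1)) := by
  haveI := hB
  have hA' : (A.map (QuotientGroup.mk' B)).Normal :=
    hA.map _ (QuotientGroup.mk'_surjective B)
  have hc : ∀ x ∈ A.map (QuotientGroup.mk' B), ∀ y ∈ A.map (QuotientGroup.mk' B),
      x * y = y * x := by
    rintro _ ⟨x, hx, rfl⟩ _ ⟨y, hy, rfl⟩
    rw [← map_mul, ← map_mul, QuotientGroup.mk'_apply, QuotientGroup.mk'_apply, QuotientGroup.eq]
    have h2 := hcomm _ (A.inv_mem hy) _ (A.inv_mem hx)
    have h3 : (x * y)⁻¹ * (y * x) = y⁻¹ * x⁻¹ * y⁻¹⁻¹ * x⁻¹⁻¹ := by group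
    rw [h3]
    exact h2
  obtain ⟨k, hk, m, C, h0, hm, hC⟩ := sec_ab
    (pg_quot (QuotientGroup.mk' B) (QuotientGroup.mk'_surjective B) h)
    (A.map (QuotientGroup.mk' B)) hA' hc (fg_map hfg _) (QuotientGroup.mk' B t)
  refine ⟨k, hk, m, fun i => (C i).comap (QuotientGroup.mk' B), ?_, ?_, ?_, ?_⟩
  · change (C 0).comap (QuotientGroup.mk' B) = A
    rw [h0, Subgroup.comap_map_eq, QuotientGroup.ker_mk', sup_eq_left.2 hBA]
  · change (C m).comap (QuotientGroup.mk' B) = B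
    rw [hm, MonoidHom.comap_bot, QuotientGroup.ker_mk']
  · intro i x hx
    have h1 : QuotientGroup.mk' B x = 1 := (QuotientGroup.eq_one_iff x).2 hx
    rw [Subgroup.mem_comap, h1]
    exact (C i).one_mem
  · intro i
    obtain ⟨h1, h2, h3⟩ := hC i
    refine ⟨fun x => ?_, fun x => ?_, fun x hx => ?_⟩
    · have h4 := h1 (QuotientGroup.mk' B x)
      rw [Subgroup.mem_comap, Subgroup.mem_comap]
      simpa only [map_mul, map_pow, map_inv] using h4
    · have h4 := h2 (QuotientGroup.mk' B x)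
      rw [Subgroup.mem_comap, Subgroup.mem_comap]
      simpa only [map_mul, map_pow, map_inv] using h4
    · have h4 := h3 (QuotientGroup.mk' B x) hx
      rw [Subgroup.mem_comap]
      simpa only [map_mul, map_pow, map_inv] using h4

end H85.TN
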